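import Pool.Agent.FRD.Defs

/-! # FRD-BerP: the Bernoulli polynomial modulo `p` -/

open Polynomial

namespace Pool.Agent.FRD

private theorem berp_unit {p : ℕ} [Fact p.Prime] {m : ℕ} (h : ¬ p ∣ m) : ‖(m : ℚ_[p])‖ = 1 :=
  Padic.norm_natCast_eq_one_iff.2 ((Nat.Prime.coprime_iff_not_dvd Fact.out).2 h)

private theorem berp_bern {p : ℕ} [Fact p.Prime] : ∀ k : ℕ, k + 1 < p →
    ((_root_.bernoulli k : ℚ) : ℚ_[p]) ∈ PadicInt.subring p := by
  intro k
  induction k using Nat.strong_induction_on with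
  | _ k ih =>
    intro hk
    rcases Nat.eq_zero_or_pos k with rfl | hk0
    · rw [_root_.bernoulli_zero, Rat.cast_one]
      exact Subring.one_mem _
    · have h1 := _root_.sum_bernoulli (k + 1)
      rw [Finset.sum_range_succ, if_neg (by omega), Nat.choose_succ_self_right] at h1
      have h2 : ((k + 1 : ℕ) : ℚ_[p]) * ((_root_.bernoulli k : ℚ) : ℚ_[p]) =
          - ∑ i ∈ Finset.range k, (((k + 1).choose i : ℕ) : ℚ_[p]) *
            ((_root_.bernoulli i : ℚ) : ℚ_[p]) := by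
        have h3 : ((k + 1 : ℕ) : ℚ) * _root_.bernoulli k =
            - ∑ i ∈ Finset.range k, (((k + 1).choose i : ℕ) : ℚ) * _root_.bernoulli i := by
          linarith
        have h4 := congrArg (fun x : ℚ => (x : ℚ_[p])) h3
        simp only [Rat.cast_mul, Rat.cast_natCast, Rat.cast_neg, Rat.cast_sum] at h4
        exact h4
      have h3 : ‖((k + 1 : ℕ) : ℚ_[p]) * ((_root_.bernoulli k : ℚ) : ℚ_[p])‖ ≤ 1 := by
        rw [← PadicInt.mem_subring_iff, h2]
        refine Subring.neg_mem _ (Subring.sum_mem _ fun i hi => Subring.mul_mem _ ?_ ?_)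
        · exact natCast_mem _ _
        · rw [Finset.mem_range] at hi
          exact ih i hi (by omega)
      rw [norm_mul, berp_unit (fun h => absurd (Nat.le_of_dvd (by omega) h) (by omega)),
        one_mul] at h3
      exact (PadicInt.mem_subring_iff p).2 h3

theorem ber_p (p : ℕ) [Fact p.Prime] {n N : ℕ} (hn : 1 ≤ n) (hnp : n < p) (hN : ¬ p ∣ N) :
    ∃ P : ℤ_[p][X], P.natDegree ≤ n ∧
      (∀ m : ℕ, P.eval ((m + N : ℕ) : ℤ_[p]) - P.eval (m : ℤ_[p]) = n * (m : ℤ_[p]) ^ (n - 1)) ∧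
      ∀ r : ℕ, ((P.eval (r : ℤ_[p]) : ℤ_[p]) : ℚ_[p]) =
        (((N : ℚ) ^ (n - 1) * ((Polynomial.bernoulli n).eval ((r : ℚ) / N) - _root_.bernoulli n) :
          ℚ) : ℚ_[p]) := by
  have hN0 : N ≠ 0 := by
    rintro rfl
    exact hN (dvd_zero p)
  have hNQ : (N : ℚ) ≠ 0 := by exact_mod_cast hN0
  have hb : ∀ k, ∃ b : ℤ_[p], k < n → ((b : ℤ_[p]) : ℚ_[p]) = ((_root_.bernoulli k : ℚ) : ℚ_[p]) := by
    intro k
    by_cases hk : k < n
    · exact ⟨⟨_, (PadicInt.mem_subring_iff p).1 (berp_bern k (by omega))⟩, fun _ => rfl⟩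
    · exact ⟨0, fun h => absurd h hk⟩
  choose b hb using hb
  obtain ⟨v, hv⟩ : ∃ v : ℤ_[p], ((v : ℤ_[p]) : ℚ_[p]) = ((1 / (N : ℚ) : ℚ) : ℚ_[p]) := by
    refine ⟨⟨((1 / (N : ℚ) : ℚ) : ℚ_[p]), ?_⟩, rfl⟩
    rw [Rat.cast_div, Rat.cast_one, Rat.cast_natCast, norm_div, norm_one, berp_unit hN, div_one]
  obtain ⟨P, hP⟩ : ∃ P : ℤ_[p][X], P = ∑ k ∈ Finset.range n,
      C (((n.choose k : ℕ) : ℤ_[p]) * b k * (N : ℤ_[p]) ^ k * v) * X ^ (n - k) := ⟨_, rfl⟩
  have h3 : ∀ r : ℕ, ((P.eval (r : ℤ_[p]) : ℤ_[p]) : ℚ_[p]) =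
      (((N : ℚ) ^ (n - 1) * ((Polynomial.bernoulli n).eval ((r : ℚ) / N) - _root_.bernoulli n) :
        ℚ) : ℚ_[p]) := by
    intro r
    have e1 : (N : ℚ) ^ (n - 1) * ((Polynomial.bernoulli n).eval ((r : ℚ) / N) - _root_.bernoulli n) =
        ∑ k ∈ Finset.range n, ((n.choose k : ℕ) : ℚ) * _root_.bernoulli k * (N : ℚ) ^ k * (1 / (N : ℚ)) *
          (r : ℚ) ^ (n - k) := by
      unfold Polynomial.bernoulli
      rw [Polynomial.eval_finsetSum, Finset.sum_range_succ]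
      simp only [Polynomial.eval_monomial]
      rw [Nat.choose_self, Nat.sub_self, pow_zero, Nat.cast_one, mul_one, mul_one, add_sub_cancel_right,
        Finset.mul_sum]
      refine Finset.sum_congr rfl fun k hk => ?_
      have hk' := Finset.mem_range.1 hk
      have e2 : (N : ℚ) ^ (n - 1) = (N : ℚ) ^ k * (N : ℚ) ^ (n - k) / N := by
        rw [eq_div_iff hNQ, ← pow_succ, ← pow_add]
        congr 1
        omega
      rw [div_pow, e2]
      field_simp
    have e0 : ∀ x : ℤ_[p], (x : ℚ_[p]) = PadicInt.Coe.ringHom x := fun _ => rfl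
    rw [e1, hP, Polynomial.eval_finsetSum, e0, map_sum, Rat.cast_sum]
    refine Finset.sum_congr rfl fun k hk => ?_
    have hk' := Finset.mem_range.1 hk
    rw [Polynomial.eval_mul, Polynomial.eval_C, Polynomial.eval_pow, Polynomial.eval_X]
    rw [← e0]
    simp only [PadicInt.coe_mul, PadicInt.coe_pow, PadicInt.coe_natCast, hb k hk', hv, Rat.cast_mul,
      Rat.cast_pow, Rat.cast_natCast]
  refine ⟨P, ?_, ?_, h3⟩
  · rw [hP]
    refine Polynomial.natDegree_sum_le_of_forall_le _ _ fun k _ => ?_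
    exact (Polynomial.natDegree_C_mul_X_pow_le _ _).trans (Nat.sub_le _ _)
  · intro m
    have h4 : ∀ x y : ℤ_[p], (x : ℚ_[p]) = (y : ℚ_[p]) → x = y := fun x y h => Subtype.ext h
    apply h4
    rw [PadicInt.coe_sub, h3 (m + N), h3 m, ← Rat.cast_sub]
    have e1 : (((m + N : ℕ) : ℚ) / N) = 1 + (m : ℚ) / N := by
      push_cast
      field_simp
      ring
    have e2 : (N : ℚ) ^ (n - 1) * ((Polynomial.bernoulli n).eval (((m + N : ℕ) : ℚ) / N) - _root_.bernoulli n) -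
        (N : ℚ) ^ (n - 1) * ((Polynomial.bernoulli n).eval ((m : ℚ) / N) - _root_.bernoulli n) =
        n * (m : ℚ) ^ (n - 1) := by
      rw [e1, Polynomial.bernoulli_eval_one_add, div_pow]
      have e3 : (N : ℚ) ^ (n - 1) ≠ 0 := pow_ne_zero _ hNQ
      field_simp
      ring
    rw [e2]
    push_cast
    rfl

end Pool.Agent.FRD
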