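import Pool.Agent.FRD.PsA

/-!
# FRD-PsB: Fourier transform of a polynomial with `P(m + N) - P(m) = n m ^ (n-1)`
-/

open Polynomial Finset

namespace Pool.Agent.FRD

theorem ps_b {K : Type} [Field K] {n N : ℕ} (P A : K[X]) (hP : P.natDegree ≤ n)
    (hd : ∀ m : ℕ, P.eval ((m + N : ℕ) : K) - P.eval (m : K) = n * (m : K) ^ (n - 1))
    (hA : (1 - PowerSeries.X) ^ n * PowerSeries.mk (fun m => (m : K) ^ (n - 1)) =
      (A : PowerSeries K)) (w : K) (hw : w ^ N = 1) (hw1 : w ≠ 1) :
    (∑ r ∈ range N, w ^ r * P.eval (r : K)) * (1 - w) ^ n = -(n : K) * A.eval w := by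
  obtain ⟨A₂, -, -, hA₂⟩ := ps_a n P hP
  set F : PowerSeries K := PowerSeries.mk (fun m => P.eval (m : K)) with hF
  set G : PowerSeries K := PowerSeries.mk (fun m => P.eval ((m + N : ℕ) : K)) with hG
  set M : PowerSeries K := PowerSeries.mk (fun m => (m : K) ^ (n - 1)) with hM
  set R : K[X] := ∑ r ∈ range N, C (P.eval (r : K)) * X ^ r with hR
  have h1 : F = PowerSeries.X ^ N * G + (R : PowerSeries K) := by
    ext m
    rw [map_add, PowerSeries.coeff_X_pow_mul', Polynomial.coeff_coe, hF, PowerSeries.coeff_mk, hG,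
      PowerSeries.coeff_mk, hR, Polynomial.finsetSum_coeff]
    simp only [Polynomial.coeff_C_mul_X_pow]
    rw [Finset.sum_ite_eq]
    by_cases hm : N ≤ m
    · rw [if_pos hm, if_neg (by rw [mem_range]; omega), add_zero, Nat.sub_add_cancel hm]
    · rw [if_neg hm, if_pos (by rw [mem_range]; omega), zero_add]
  have h2 : G - F = PowerSeries.C (n : K) * M := by
    ext m
    rw [map_sub, hG, hF, hM, PowerSeries.coeff_mk, PowerSeries.coeff_mk, PowerSeries.coeff_C_mul,
      PowerSeries.coeff_mk, hd]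
  have h3 : PowerSeries.C (n : K) * PowerSeries.X ^ N * (1 - PowerSeries.X) * (A : PowerSeries K) =
      (1 - PowerSeries.X ^ N) * (A₂ : PowerSeries K) -
        (1 - PowerSeries.X) ^ (n + 1) * (R : PowerSeries K) := by
    rw [← hA, ← hA₂]
    have h4 : (R : PowerSeries K) = F - PowerSeries.X ^ N * G := by
      rw [h1]
      ring
    have h5 : G = F + PowerSeries.C (n : K) * M := by
      rw [← h2]
      ring
    rw [h4, h5]
    ring
  have h4 : C (n : K) * X ^ N * (1 - X) * A = (1 - X ^ N) * A₂ - (1 - X) ^ (n + 1) * R := by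
    rw [← Polynomial.coe_inj]
    push_cast
    exact_mod_cast h3
  have h5 := congrArg (Polynomial.eval w) h4
  rw [hR] at h5
  simp only [eval_mul, eval_C, eval_pow, eval_X, eval_sub, eval_one, hw, sub_self, zero_mul,
    zero_sub, mul_one, eval_finsetSum] at h5
  have h6 : (1 - w) ≠ 0 := sub_ne_zero.2 hw1.symm
  apply mul_left_cancel₀ h6
  have h7 : ∑ r ∈ range N, w ^ r * P.eval (r : K) = ∑ r ∈ range N, P.eval (r : K) * w ^ r :=
    Finset.sum_congr rfl fun r _ => mul_comm _ _
  rw [h7]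
  linear_combination h5

end Pool.Agent.FRD
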