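import Pool.Agent.FRD.DefsE
import Pool.Agent.FRD.BerP
import Pool.Agent.FRD.PsB

/-!
# FRD-Bri: the generalized Bernoulli number and its reduction
-/

open Polynomial

namespace Pool.Agent.FRD

private theorem bri_norm {N : ℕ} [NeZero N] {E : Type} [NormedField E]
    (χ : (ZMod N)ˣ →* Eˣ) (r : (ZMod N)ˣ) : ‖(χ r : E)‖ = 1 := by
  refine (pow_eq_one_iff_of_nonneg (norm_nonneg _) (Nat.card_pos (α := (ZMod N)ˣ)).ne').mp ?_
  rw [← norm_pow, ← Units.val_pow_eq_pow_val, ← map_pow, pow_card_eq_one']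
  simp

private theorem bri_pow (p : ℕ) [Fact p.Prime] {K : Type} [Field K] [CharP K p]
    (τ : ℤ_[p] →+* K) (x : ℤ_[p]) : τ x ^ p = τ x := by
  have h1 := PadicInt.sub_zmodRepr_mem x
  rw [PadicInt.maximalIdeal_eq_span_p, Ideal.mem_span_singleton] at h1
  obtain ⟨y, hy⟩ := h1
  have h2 : x = (x.zmodRepr : ℤ_[p]) + p * y := by rw [← hy]; ring
  have h3 : τ x = (x.zmodRepr : K) := by
    conv_lhs => rw [h2]
    rw [map_add, map_mul, map_natCast, map_natCast, CharP.cast_eq_zero K p, zero_mul, add_zero]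
  have h4 := map_natCast (frobenius K p) x.zmodRepr
  rw [frobenius_def] at h4
  rw [h3, h4]

private theorem bri_sum {N : ℕ} [NeZero N] {K : Type} [Field K] (f : ℕ → K) (w : K) :
    (∑ y : ZMod N, w ^ y.val * f y.val) = ∑ r ∈ Finset.range N, w ^ r * f r := by
  refine Finset.sum_bij' (fun y _ => y.val) (fun r _ => (r : ZMod N)) ?_ ?_ ?_ ?_ ?_
  · intro y _
    exact Finset.mem_range.2 (ZMod.val_lt y)
  · intro r _
    exact Finset.mem_univ _
  · intro y _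
    exact ZMod.natCast_zmod_val y
  · intro r hr
    exact ZMod.val_cast_of_lt (Finset.mem_range.1 hr)
  · intro y _
    rfl

private theorem bri_zero {N : ℕ} [NeZero N] {E : Type} [Field E] (γ : (ZMod N)ˣ →* Eˣ)
    (hγ : γ ≠ 1) : ∑ r : (ZMod N)ˣ, ((γ r : Eˣ) : E) = 0 := by
  obtain ⟨b, hb⟩ : ∃ b, γ b ≠ 1 := by
    by_contra h
    push Not at h
    exact hγ (MonoidHom.ext h)
  have h1 : ((γ b : Eˣ) : E) * ∑ r : (ZMod N)ˣ, ((γ r : Eˣ) : E) =
      ∑ r : (ZMod N)ˣ, ((γ r : Eˣ) : E) := by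
    rw [Finset.mul_sum]
    refine Fintype.sum_equiv (Equiv.mulLeft b) _ _ fun r => ?_
    rw [Equiv.coe_mulLeft, map_mul, Units.val_mul]
  have h2 : (((γ b : Eˣ) : E) - 1) * ∑ r : (ZMod N)ˣ, ((γ r : Eˣ) : E) = 0 := by
    rw [sub_mul, h1, one_mul, sub_self]
  rcases mul_eq_zero.1 h2 with h3 | h3
  · exact absurd (Units.ext (by rw [Units.val_one]; exact sub_eq_zero.1 h3)) hb
  · exact h3

open Pool.Agent.AAP in
theorem bri (p : ℕ) [Fact p.Prime] {E K : Type} [NormedField E] [IsUltrametricDist E]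
    [NormedAlgebra ℚ_[p] E] [Field K] [CharP K p] (π : OE E →+* K) (hπ : Red π) {N n : ℕ}
    [NeZero N] (hn : 1 ≤ n) (hnp : n < p) (hN : ¬ p ∣ N) (γ : (ZMod N)ˣ →* Eˣ) (hγ : γ ≠ 1)
    (χ : (ZMod N)ˣ →* Kˣ) (hχ : RedOf π γ χ) :
    ∃ (g : ZMod N → K) (A : K[X]) (c : K), (∀ y, g y ^ p = g y) ∧ A.natDegree ≤ n ∧
      A.eval 1 ≠ 0 ∧ c ≠ 0 ∧
      (∀ w : K, w ^ N = 1 → w ≠ 1 → Gs g w * (1 - w) ^ n = c * A.eval w) ∧
      (∑ r : (ZMod N)ˣ, ((χ r : Kˣ) : K) * g r ≠ 0 → ‖genBern N n γ‖ = 1) := by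
  obtain ⟨P, hPd, hPs, hPv⟩ := ber_p p hn hnp hN
  have hιm : ∀ x : ℤ_[p], ((algebraMap ℚ_[p] E).comp PadicInt.Coe.ringHom) x ∈ OE E := by
    intro x
    rw [mem_OE]
    show ‖algebraMap ℚ_[p] E (x : ℚ_[p])‖ ≤ 1
    rw [norm_algebraMap']
    exact PadicInt.norm_le_one x
  let ι : ℤ_[p] →+* OE E := RingHom.codRestrict _ (OE E) hιm
  have hιv : ∀ x : ℤ_[p], ((ι x : OE E) : E) = algebraMap ℚ_[p] E (x : ℚ_[p]) := fun x => rfl
  let τ : ℤ_[p] →+* K := π.comp ι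
  obtain ⟨A₀, hA1, hA2, hA3⟩ := ps_a (K := K) (n - 1) (X ^ (n - 1)) (natDegree_X_pow_le _)
  have hev : ∀ m : ℕ, (P.map τ).eval (m : K) = τ (P.eval (m : ℤ_[p])) := by
    intro m
    have h1 := Polynomial.eval₂_at_apply (p := P) τ (m : ℤ_[p])
    rw [map_natCast] at h1
    rw [Polynomial.eval_map, h1]
  have hn0 : (n : K) ≠ 0 := by
    intro h
    have h1 := (CharP.cast_eq_zero_iff K p n).1 h
    have h2 := Nat.le_of_dvd hn h1
    omega
  refine ⟨fun y => τ (P.eval (y.val : ℤ_[p])), A₀, -(n : K), fun y => bri_pow p τ _, by omega,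
    ?_, neg_ne_zero.2 hn0, ?_, ?_⟩
  · rw [hA2, coeff_X_pow_self, mul_one]
    intro h
    have h1 := (CharP.cast_eq_zero_iff K p _).1 h
    have h2 := ((Fact.out : p.Prime).dvd_factorial).1 h1
    omega
  · intro w hw hw1
    have h1 : Gs (fun y : ZMod N => τ (P.eval (y.val : ℤ_[p]))) w =
        ∑ r ∈ Finset.range N, w ^ r * (P.map τ).eval (r : K) := by
      rw [← bri_sum (N := N) (fun r => (P.map τ).eval (r : K)) w]
      unfold Gs
      refine Finset.sum_congr rfl fun y _ => ?_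
      simp only [hev]
    rw [h1]
    refine ps_b (P.map τ) A₀ (natDegree_map_le.trans hPd) ?_ ?_ w hw hw1
    · intro m
      rw [hev, hev, ← map_sub, hPs m, map_mul, map_pow, map_natCast, map_natCast]
    · have h2 : n - 1 + 1 = n := by omega
      rw [h2] at hA3
      rw [← hA3]
      congr 2
      funext m
      simp
  · intro hne
    have hc0 : CharZero E := charZero_of_injective_algebraMap (algebraMap ℚ_[p] E).injective
    have hγn : ∀ r : (ZMod N)ˣ, ((γ r : Eˣ) : E) ∈ OE E := fun r => by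
      rw [mem_OE]
      exact (bri_norm γ r).le
    let t : OE E := ∑ r : (ZMod N)ˣ, (⟨((γ r : Eˣ) : E), hγn r⟩ : OE E) *
      ι (P.eval (((r : (ZMod N)ˣ) : ZMod N).val : ℤ_[p]))
    have ht : genBern N n γ = (t : E) := by
      have h1 : (t : E) = ∑ r : (ZMod N)ˣ, ((γ r : Eˣ) : E) *
          algebraMap ℚ_[p] E ((P.eval (((r : (ZMod N)ˣ) : ZMod N).val : ℤ_[p]) : ℤ_[p]) :
            ℚ_[p]) := by
        simp only [t]
        rw [AddSubmonoidClass.coe_finsetSum]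
        refine Finset.sum_congr rfl fun r _ => ?_
        rw [Subring.coe_mul, hιv]
      rw [h1]
      unfold genBern
      have h2 : ∀ r : (ZMod N)ˣ, ((γ r : Eˣ) : E) *
          algebraMap ℚ_[p] E ((P.eval (((r : (ZMod N)ˣ) : ZMod N).val : ℤ_[p]) : ℤ_[p]) :
            ℚ_[p]) = ((γ r : Eˣ) : E) * (((N : ℚ) ^ (n - 1) *
              (Polynomial.bernoulli n).eval (((r : ZMod N).val : ℚ) / N) : ℚ) : E) -
            ((γ r : Eˣ) : E) * (((N : ℚ) ^ (n - 1) * _root_.bernoulli n : ℚ) : E) := by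
        intro r
        rw [hPv, map_ratCast, ← mul_sub, ← Rat.cast_sub, ← mul_sub]
      rw [Finset.sum_congr rfl fun r _ => h2 r, Finset.sum_sub_distrib, ← Finset.sum_mul,
        bri_zero γ hγ, zero_mul, sub_zero]
    have hπt : π t = ∑ r : (ZMod N)ˣ, ((χ r : Kˣ) : K) *
        τ (P.eval (((r : (ZMod N)ˣ) : ZMod N).val : ℤ_[p])) := by
      simp only [t]
      rw [map_sum]
      refine Finset.sum_congr rfl fun r _ => ?_
      rw [map_mul, hχ r (hγn r)]
      rfl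
    rw [ht]
    have h3 : ¬ ‖(t : E)‖ < 1 := by
      intro h
      have h4 := (hπ t).2 h
      rw [hπt] at h4
      exact hne h4
    have h5 : ‖(t : E)‖ ≤ 1 := t.2
    exact le_antisymm h5 (not_lt.1 h3)

end Pool.Agent.FRD
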