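import Pool.Agent.FRD.DefsE

/-!
# FRD-Cond: the conductor
-/

namespace Pool.Agent.FRD

private theorem factor {G H M : Type} [Group G] [Group H] [Group M] (φ : G →* H)
    (hφ : Function.Surjective φ) (ψ : G →* M) (h : ∀ r, φ r = 1 → ψ r = 1) :
    ∃ ψ' : H →* M, ψ = ψ'.comp φ := by
  refine ⟨MonoidHom.liftOfRightInverse φ (Function.surjInv hφ) (Function.rightInverse_surjInv hφ)
    ⟨ψ, fun r hr => h r hr⟩, ?_⟩
  exact (MonoidHom.liftOfRightInverse_comp φ (Function.surjInv hφ)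
    (Function.rightInverse_surjInv hφ) ⟨ψ, fun r hr => h r hr⟩).symm

theorem cond {E K : Type} [Field E] [Field K] {N : ℕ} [NeZero N] (γ : (ZMod N)ˣ →* Eˣ)
    (χ : (ZMod N)ˣ →* Kˣ) (hk : ∀ r, χ r = 1 → γ r = 1) :
    ∃ (f : ℕ) (_ : NeZero f) (hf : f ∣ N) (γ' : (ZMod f)ˣ →* Eˣ) (χ' : (ZMod f)ˣ →* Kˣ),
      γ = γ'.comp (ZMod.unitsMap hf) ∧ χ = χ'.comp (ZMod.unitsMap hf) ∧ Prim χ' := by
  classical
  have hex : ∃ f : ℕ, ∃ hf : f ∣ N, ∀ r, ZMod.unitsMap hf r = 1 → χ r = 1 := by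
    refine ⟨N, dvd_refl N, fun r hr => ?_⟩
    rw [ZMod.unitsMap_self] at hr
    have : r = 1 := hr
    rw [this, map_one]
  obtain ⟨f, hfdef⟩ : ∃ f, f = Nat.find hex := ⟨_, rfl⟩
  have hspec := Nat.find_spec hex
  have hmin := fun m (hm : m < Nat.find hex) => Nat.find_min hex hm
  rw [← hfdef] at hspec hmin
  obtain ⟨hf, hker⟩ := hspec
  have hf0 : f ≠ 0 := by
    rintro rfl
    exact NeZero.ne N (zero_dvd_iff.1 hf)
  have hsurj : Function.Surjective (ZMod.unitsMap hf) := ZMod.unitsMap_surjective hf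
  obtain ⟨χ', hχ'⟩ := factor (ZMod.unitsMap hf) hsurj χ hker
  obtain ⟨γ', hγ'⟩ := factor (ZMod.unitsMap hf) hsurj γ (fun r hr => hk r (hker r hr))
  refine ⟨f, ⟨hf0⟩, hf, γ', χ', hγ', hχ', ?_⟩
  have : NeZero f := ⟨hf0⟩
  intro l hl hlf
  have hdf : f / l ∣ f := Nat.div_dvd_of_dvd hlf
  have hlt : f / l < f := Nat.div_lt_self (Nat.pos_of_ne_zero hf0) hl.one_lt
  have h1 := hmin _ hlt
  push Not at h1
  obtain ⟨r, hr1, hr2⟩ := h1 (hdf.trans hf)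
  refine ⟨ZMod.unitsMap hf r, ?_, ?_⟩
  · rw [oneMod_iff hdf]
    have h2 : ZMod.unitsMap hdf (ZMod.unitsMap hf r) = 1 := by
      rw [← MonoidHom.comp_apply, ZMod.unitsMap_comp]
      exact hr1
    have h3 := congrArg Units.val h2
    exact h3
  · intro hcon
    apply hr2
    rw [hχ']
    exact hcon

end Pool.Agent.FRD
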