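import Pool.Agent.FRD.Faith

/-!
# FRD-Eul: Euler factors (proved)
-/

open Finset

namespace Pool.Agent.FRD

theorem eul {p : ℕ} (hp : p.Prime) {S : Finset ℕ} (hS : ∀ l ∈ S, l.Prime) :
    ∃ B : ℕ, ∀ (f : ℕ) [NeZero f], B < f → InS S f → ∀ (K : Type) [Field K]
      (χ : (ZMod f)ˣ →* Kˣ), Prim χ → ∀ l : ℕ, l.Prime → (l ∈ S ∨ l = p) →
        ∀ u : (ZMod f)ˣ, (u : ZMod f) = l → χ u ^ (p - 1) ≠ 1 := by
  classical
  set M : ℕ := (p - 1) * ES S with hM
  have hES : ES S ≠ 0 := by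
    unfold ES
    refine mul_ne_zero two_ne_zero (Finset.prod_ne_zero_iff.mpr fun l hl => ?_)
    have := (hS l hl).two_le
    omega
  have hM0 : M ≠ 0 := by
    rw [hM]
    refine mul_ne_zero ?_ hES
    have := hp.two_le
    omega
  refine ⟨∑ l ∈ insert p S, l ^ M, ?_⟩
  intro f _ hB hf K _ χ hχ l hl hlS u hu hc
  have h1 : u ^ M = 1 := faith hS hf χ hχ (p - 1) u hc
  have h2 : ((l ^ M : ℕ) : ZMod f) = ((1 : ℕ) : ZMod f) := by
    have := congrArg (fun w : (ZMod f)ˣ => (w : ZMod f)) h1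
    simp only [Units.val_pow_eq_pow_val, Units.val_one] at this
    rw [hu] at this
    push_cast
    exact this
  rw [ZMod.natCast_eq_natCast_iff] at h2
  have h3 : f ∣ l ^ M - 1 := (Nat.modEq_iff_dvd' (Nat.one_le_pow _ _ hl.pos)).mp h2.symm
  have h4 : 1 < l ^ M := Nat.one_lt_pow hM0 hl.one_lt
  have h5 : f ≤ l ^ M - 1 := Nat.le_of_dvd (by omega) h3
  have h6 : l ^ M ≤ ∑ l ∈ insert p S, l ^ M := by
    refine Finset.single_le_sum (f := fun l => l ^ M) (fun i _ => Nat.zero_le _) ?_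
    rcases hlS with h | h
    · exact Finset.mem_insert_of_mem h
    · rw [h]; exact Finset.mem_insert_self _ _
  omega

end Pool.Agent.FRD
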