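import Pool.Agent.FRD.DefsE
import Pool.Agent.AAP.Par

/-!
# FRD-ParE: parity, from `Pool.Agent.AAP.parity`
-/

namespace Pool.Agent.FRD

open Pool.Agent.AAP in
theorem par_e (p N n : ℕ) [Fact p.Prime] [NeZero N] (hp : p ≠ 2) {E : Type} [NormedField E]
    [IsUltrametricDist E] [NormedAlgebra ℚ_[p] E] (V : Gam →* GL2 E) (hV : Even2 V)
    (α β : (ZMod N)ˣ →* Eˣ) (j : ℕ) (h : SumType p n N α β j V) :
    (((β / α : (ZMod N)ˣ →* Eˣ) (-1) : Eˣ) : E) = (-1) ^ n := by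
  have hpp : p.Prime := Fact.out
  have hp2 : 2 < p := lt_of_le_of_ne hpp.two_le (Ne.symm hp)
  exact parity n N p hp2 (old V) hV α β j h

end Pool.Agent.FRD
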