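import Pool.Agent.FRD.DefsE

/-!
# FRD-RedC: the reduction of a character
-/

namespace Pool.Agent.FRD

private theorem redc_norm {E : Type} [NormedField E] {N : ℕ} [NeZero N]
    (γ : (ZMod N)ˣ →* Eˣ) (r : (ZMod N)ˣ) : ‖((γ r : Eˣ) : E)‖ = 1 := by
  have h1 : ((γ r : Eˣ) : E) ^ Fintype.card (ZMod N)ˣ = 1 := by
    rw [← Units.val_pow_eq_pow_val, ← map_pow, pow_card_eq_one, map_one, Units.val_one]
  have h2 := congrArg norm h1
  rw [norm_pow, norm_one] at h2
  exact (pow_eq_one_iff_of_nonneg (norm_nonneg _) Fintype.card_ne_zero).1 h2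

theorem red_c {E K : Type} [NormedField E] [IsUltrametricDist E] [Field K] (π : OE E →+* K)
    {N : ℕ} [NeZero N] (γ : (ZMod N)ˣ →* Eˣ) : ∃ χ : (ZMod N)ˣ →* Kˣ, RedOf π γ χ := by
  have hm : ∀ r : (ZMod N)ˣ, ((γ r : Eˣ) : E) ∈ OE E := fun r => (redc_norm γ r).le
  let f : (ZMod N)ˣ →* K :=
    { toFun := fun r => π ⟨((γ r : Eˣ) : E), hm r⟩
      map_one' := by
        have h1 : (⟨((γ 1 : Eˣ) : E), hm 1⟩ : OE E) = 1 := by
          refine Subtype.ext ?_
          show ((γ 1 : Eˣ) : E) = 1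
          rw [map_one, Units.val_one]
        rw [h1, map_one]
      map_mul' := fun r s => by
        have h1 : (⟨((γ (r * s) : Eˣ) : E), hm (r * s)⟩ : OE E) =
            ⟨((γ r : Eˣ) : E), hm r⟩ * ⟨((γ s : Eˣ) : E), hm s⟩ := by
          refine Subtype.ext ?_
          show ((γ (r * s) : Eˣ) : E) = ((γ r : Eˣ) : E) * ((γ s : Eˣ) : E)
          rw [map_mul, Units.val_mul]
        rw [h1, map_mul] }
  refine ⟨f.toHomUnits, ?_⟩
  intro r h
  rw [MonoidHom.coe_toHomUnits]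
  rfl

end Pool.Agent.FRD
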