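import Pool.Agent.FRD.DefsE

/-! FRD-Res: the residue field. -/

namespace Pool.Agent.FRD

/-- the maximal ideal -/
private def resI (E : Type) [NormedField E] [IsUltrametricDist E] : Ideal (OE E) where
  carrier := {x | ‖(x : E)‖ < 1}
  zero_mem' := by
    show ‖((0 : OE E) : E)‖ < 1
    rw [ZeroMemClass.coe_zero, norm_zero]
    exact zero_lt_one
  add_mem' := fun {a b} ha hb => by
    show ‖((a + b : OE E) : E)‖ < 1
    rw [Subring.coe_add]
    exact lt_of_le_of_lt (IsUltrametricDist.norm_add_le_max _ _) (max_lt ha hb)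
  smul_mem' := fun c {x} hx => by
    show ‖((c • x : OE E) : E)‖ < 1
    rw [smul_eq_mul, Subring.coe_mul, norm_mul]
    exact lt_of_le_of_lt (mul_le_of_le_one_left (norm_nonneg _) c.2) hx

private theorem mem_resI {E : Type} [NormedField E] [IsUltrametricDist E] {x : OE E} :
    x ∈ resI E ↔ ‖(x : E)‖ < 1 := Iff.rfl

private theorem resI_max (E : Type) [NormedField E] [IsUltrametricDist E] :
    (resI E).IsMaximal := by
  rw [Ideal.isMaximal_iff]
  constructor
  · rw [mem_resI, OneMemClass.coe_one, norm_one]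
    exact lt_irrefl 1
  · intro J x _ hx hxJ
    rw [mem_resI, not_lt] at hx
    have hx1 : ‖(x : E)‖ = 1 := le_antisymm x.2 hx
    have hx0 : (x : E) ≠ 0 := by
      intro h
      rw [h, norm_zero] at hx1
      exact zero_ne_one hx1
    have hinv : (x : E)⁻¹ ∈ OE E := by
      rw [mem_OE, norm_inv, hx1, inv_one]
    have h1 : (⟨(x : E)⁻¹, hinv⟩ : OE E) * x = 1 := by
      apply Subtype.ext
      rw [Subring.coe_mul, OneMemClass.coe_one]
      exact inv_mul_cancel₀ hx0
    rw [← h1]
    exact J.mul_mem_left _ hxJ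

theorem res (p : ℕ) [Fact p.Prime] (E : Type) [NormedField E] [IsUltrametricDist E]
    [NormedAlgebra ℚ_[p] E] :
    ∃ (K : Type) (_ : Field K) (_ : IsAlgClosed K) (_ : CharP K p) (π : OE E →+* K), Red π := by
  haveI hmax := resI_max E
  letI : Field (OE E ⧸ resI E) := Ideal.Quotient.field _
  refine ⟨AlgebraicClosure (OE E ⧸ resI E), inferInstance, inferInstance, ?_,
    (algebraMap (OE E ⧸ resI E) (AlgebraicClosure (OE E ⧸ resI E))).comp
      (Ideal.Quotient.mk (resI E)), ?_⟩
  · rw [CharP.charP_iff_prime_eq_zero (Fact.out : p.Prime)]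
    have h1 : ((p : ℕ) : OE E) ∈ resI E := by
      rw [mem_resI]
      have h2 : (((p : ℕ) : OE E) : E) = algebraMap ℚ_[p] E ((p : ℕ) : ℚ_[p]) := by
        rw [map_natCast]
        rfl
      rw [h2, norm_algebraMap', Padic.norm_p]
      exact inv_lt_one_of_one_lt₀ (by exact_mod_cast (Fact.out : p.Prime).one_lt)
    have h3 : (Ideal.Quotient.mk (resI E)) ((p : ℕ) : OE E) = 0 :=
      Ideal.Quotient.eq_zero_iff_mem.mpr h1
    rw [map_natCast] at h3
    have h4 := congrArg (algebraMap (OE E ⧸ resI E) (AlgebraicClosure (OE E ⧸ resI E))) h3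
    rw [map_natCast, map_zero] at h4
    exact h4
  · intro x
    rw [RingHom.comp_apply, map_eq_zero, Ideal.Quotient.eq_zero_iff_mem, mem_resI]

end Pool.Agent.FRD
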