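import Pool.Agent.FRD.DefsE

/-!
# FRD-Rt: a root of unity of order prime to `p` near `1` is `1`
-/

namespace Pool.Agent.FRD

open Pool.Agent.AAP in
theorem rt {p : ℕ} [Fact p.Prime] {E : Type} [NormedField E] [IsUltrametricDist E]
    [NormedAlgebra ℚ_[p] E] {x : E} {m : ℕ} (hm : ¬ p ∣ m) (hx : x ^ m = 1) (h : Equ x 1) :
    x = 1 := by
  have hm1 : ‖(m : E)‖ = 1 := by
    have h1 : (m : E) = algebraMap ℚ_[p] E (m : ℚ_[p]) := (map_natCast _ _).symm
    rw [h1, norm_algebraMap']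
    exact Padic.norm_natCast_eq_one_iff.2 ((Nat.Prime.coprime_iff_not_dvd Fact.out).2 hm)
  by_contra hne
  have h1 : (x - 1) * ∑ i ∈ Finset.range m, x ^ i = 0 := by
    rw [mul_geom_sum, hx, sub_self]
  have h2 : ∑ i ∈ Finset.range m, x ^ i = 0 :=
    (mul_eq_zero.1 h1).resolve_left (sub_ne_zero.2 hne)
  have h4 : Cg x 1 := h
  have h3 : Cg (∑ i ∈ Finset.range m, x ^ i) (∑ i ∈ Finset.range m, (1 : E)) :=
    Cg.sum _ _ _ fun i _ => by
      have := h4.pow (by rw [norm_one]) i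
      rwa [one_pow] at this
  rw [h2, Finset.sum_const, Finset.card_range, nsmul_eq_mul, mul_one, Cg, zero_sub, norm_neg,
    hm1] at h3
  exact lt_irrefl _ h3

end Pool.Agent.FRD
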