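import Pool.Agent.FRD.TTa

/-!
# FRD-TTb (1.2h): from the conductor to the modulus
-/

namespace Pool.Agent.FRD

open Pool.Agent.AAP

private theorem ttb_norm_chi (N : ℕ) [NeZero N] (E : Type) [NormedField E]
    (χ : (ZMod N)ˣ →* Eˣ) (r : (ZMod N)ˣ) : ‖(χ r : E)‖ = 1 := by
  refine (pow_eq_one_iff_of_nonneg (norm_nonneg _) (Nat.card_pos (α := (ZMod N)ˣ)).ne').mp ?_
  rw [← norm_pow, ← Units.val_pow_eq_pow_val, ← map_pow, pow_card_eq_one']
  simp

private theorem ttb_norm_nat {E : Type} [NormedField E] [IsUltrametricDist E] (m : ℕ) :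
    ‖(m : E)‖ ≤ 1 := by
  exact IsUltrametricDist.norm_natCast_le_one E m

private theorem ttb_unit {E : Type} [NormedField E] [IsUltrametricDist E] {x : E} (hx : ‖x‖ ≤ 1)
    (h : ¬ Equ x 1) : ‖1 - x‖ = 1 := by
  apply le_antisymm
  · have h1 := IsUltrametricDist.norm_add_le_max (1 : E) (-x)
    rw [norm_one, norm_neg, ← sub_eq_add_neg] at h1
    exact h1.trans (max_le le_rfl hx)
  · unfold Equ at h
    rw [norm_sub_rev]
    exact not_lt.1 h

private theorem ttb_dist (M a l n : ℕ) [NeZero M] [NeZero (a * M)] (ha : l ^ 1 = a) (hl : l.Prime)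
    (hcop : l.Coprime M) (hn : 1 ≤ n) {E : Type} [NormedField E] [CharZero E]
    (χ' : (ZMod M)ˣ →* Eˣ) :
    genBern (a * M) n (χ'.comp (ZMod.unitsMap (dvd_mul_left M a))) =
      (1 - (χ' (ZMod.unitOfCoprime l hcop) : E) * (l : E) ^ (n - 1)) * genBern M n χ' := by
  subst ha
  exact tt_dist M 1 l n hl one_pos hcop hn χ'

private theorem ttb_aux {p : ℕ} [Fact p.Prime] {f n : ℕ} [NeZero f] (hn : 1 ≤ n)
    {E : Type} [NormedField E] [IsUltrametricDist E] [NormedAlgebra ℚ_[p] E]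
    (γ : (ZMod f)ˣ →* Eˣ) (h1 : ‖genBern f n γ‖ = 1) (k : ℕ) :
    ∀ (N : ℕ) (_ : NeZero N) (hf : f ∣ N), N / f = k →
    (∀ l : ℕ, l.Prime → l ∣ N → ∀ u : (ZMod f)ˣ, (u : ZMod f) = l →
      ¬ Equ (((γ u : Eˣ) : E) * (l : E) ^ (n - 1)) 1) →
    ‖genBern N n (γ.comp (ZMod.unitsMap hf))‖ = 1 := by
  have hE0 : CharZero E :=
    charZero_of_injective_algebraMap (R := ℚ_[p]) (algebraMap ℚ_[p] E).injective
  induction k using Nat.strong_induction_on with
  | _ k ih =>
    intro N hN0 hf hk hE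
    have hfpos : 0 < f := Nat.pos_of_ne_zero (NeZero.ne f)
    have hNpos : 0 < N := Nat.pos_of_ne_zero hN0.out
    by_cases hk1 : k = 1
    · have hNf : N = f := by
        have := Nat.div_mul_cancel hf
        rw [hk, hk1, one_mul] at this
        exact this.symm
      subst hNf
      have h2 : ZMod.unitsMap hf = MonoidHom.id _ := ZMod.unitsMap_self N
      rw [h2, MonoidHom.comp_id]
      exact h1
    · have hkpos : 0 < k := by
        rw [← hk]
        exact Nat.div_pos (Nat.le_of_dvd hNpos hf) hfpos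
      obtain ⟨l, hl, hlk⟩ := Nat.exists_prime_and_dvd hk1
      obtain ⟨k', hk'⟩ := hlk
      have hNk : N = l * (k' * f) := by
        have := Nat.div_mul_cancel hf
        rw [hk, hk'] at this
        rw [← this, mul_assoc]
      set M := k' * f with hM
      have hk'pos : 0 < k' := Nat.pos_of_ne_zero fun h => by
        rw [h, mul_zero] at hk'
        omega
      have hM0 : NeZero M := ⟨(Nat.mul_pos hk'pos hfpos).ne'⟩
      have hfM : f ∣ M := Dvd.intro_left k' rfl
      have hMk : M / f = k' := by rw [hM, Nat.mul_div_cancel _ hfpos]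
      have hkk : k' < k := by
        rw [hk']
        have := hl.two_le
        nlinarith
      have hEM : ∀ l' : ℕ, l'.Prime → l' ∣ M → ∀ u : (ZMod f)ˣ, (u : ZMod f) = l' →
          ¬ Equ (((γ u : Eˣ) : E) * (l' : E) ^ (n - 1)) 1 := fun l' hl' hd =>
        hE l' hl' (hNk ▸ Dvd.dvd.mul_left hd l)
      have hM1 := ih k' hkk M hM0 hfM hMk hEM
      subst hNk
      have hcomp : γ.comp (ZMod.unitsMap hf) =
          (γ.comp (ZMod.unitsMap hfM)).comp (ZMod.unitsMap (dvd_mul_left M l)) := by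
        rw [MonoidHom.comp_assoc, ZMod.unitsMap_comp]
      by_cases hlM : l ∣ M
      · rw [hcomp, tt_a M l n hl hlM hn]
        exact hM1
      · have hcop : l.Coprime M := (Nat.Prime.coprime_iff_not_dvd hl).2 hlM
        have hcopf : l.Coprime f := Nat.Coprime.coprime_dvd_right hfM hcop
        have hu := hE l hl (dvd_mul_right l M) (ZMod.unitOfCoprime l hcopf)
          (ZMod.coe_unitOfCoprime l hcopf)
        have hval : (γ.comp (ZMod.unitsMap hfM)) (ZMod.unitOfCoprime l hcop) =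
            γ (ZMod.unitOfCoprime l hcopf) := by
          rw [MonoidHom.comp_apply]
          congr 1
          apply Units.ext
          rw [ZMod.coe_unitOfCoprime]
          simp [ZMod.unitsMap_def]
        rw [hcomp, ttb_dist M l l n (pow_one l) hl hcop hn, norm_mul, hM1, mul_one, hval]
        refine ttb_unit ?_ hu
        rw [norm_mul, ttb_norm_chi, one_mul, norm_pow]
        exact pow_le_one₀ (norm_nonneg _) (ttb_norm_nat l)

theorem tt_b {p : ℕ} [Fact p.Prime] {N f n : ℕ} [NeZero N] [NeZero f] (hf : f ∣ N) (hn : 1 ≤ n)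
    {E : Type} [NormedField E] [IsUltrametricDist E] [NormedAlgebra ℚ_[p] E]
    (γ : (ZMod f)ˣ →* Eˣ)
    (hE : ∀ l : ℕ, l.Prime → l ∣ N → ∀ u : (ZMod f)ˣ, (u : ZMod f) = l →
      ¬ Equ (((γ u : Eˣ) : E) * (l : E) ^ (n - 1)) 1)
    (h1 : ‖genBern f n γ‖ = 1) : ‖genBern N n (γ.comp (ZMod.unitsMap hf))‖ = 1 :=
  ttb_aux (p := p) hn γ h1 _ N inferInstance hf rfl hE

end Pool.Agent.FRD
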