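import Pool.Agent.FRD.Core
import Pool.Agent.FRD.Eul
import Pool.Agent.FRD.Bri
import Pool.Agent.FRD.Res
import Pool.Agent.FRD.RedC
import Pool.Agent.FRD.Rt
import Pool.Agent.FRD.ParE
import Pool.Agent.FRD.Cond
import Pool.Agent.FRD.TTb

/-!
# Assembly of FiniteReductions
-/

open Pool.Agent.AAP Pool.Agent.Helper60.FM

namespace Pool.Agent.FRD

section

variable {E K : Type} [NormedField E] [IsUltrametricDist E] [Field K]

private theorem pi_eq {π : OE E →+* K} (hπ : Red π) {x y : OE E} :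
    π x = π y ↔ ‖(x : E) - y‖ < 1 := by
  rw [← sub_eq_zero, ← map_sub, hπ]
  rfl

private theorem mem_chi {N : ℕ} [NeZero N] (γ : (ZMod N)ˣ →* Eˣ) (r : (ZMod N)ˣ) :
    ((γ r : Eˣ) : E) ∈ OE E :=
  (norm_chi γ r).le

private theorem chi_eq {π : OE E →+* K} (hπ : Red π) {N : ℕ} [NeZero N] {γ : (ZMod N)ˣ →* Eˣ}
    {χ : (ZMod N)ˣ →* Kˣ} (hχ : RedOf π γ χ) (r : (ZMod N)ˣ) (y : OE E) :
    ((χ r : Kˣ) : K) = π y ↔ ‖((γ r : Eˣ) : E) - y‖ < 1 := by
  rw [hχ r (mem_chi γ r), pi_eq hπ]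

private theorem chi_one {π : OE E →+* K} (hπ : Red π) {N : ℕ} [NeZero N] {γ : (ZMod N)ˣ →* Eˣ}
    {χ : (ZMod N)ˣ →* Kˣ} (hχ : RedOf π γ χ) (r : (ZMod N)ˣ) :
    χ r = 1 ↔ Equ ((γ r : Eˣ) : E) 1 := by
  have h := chi_eq hπ hχ r 1
  rw [map_one] at h
  rw [← Units.val_inj, Units.val_one, h]
  rfl

private theorem unitsMap_eq_one {N f : ℕ} [NeZero N] (hf : f ∣ N) (r : (ZMod N)ˣ)
    (h : (r : ZMod N).val ≡ 1 [MOD f]) : ZMod.unitsMap hf r = 1 := by
  apply Units.ext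
  rw [ZMod.unitsMap_val, Units.val_one, ZMod.cast_eq_val]
  have h1 := (ZMod.natCast_eq_natCast_iff _ _ _).2 h
  rw [h1, Nat.cast_one]

private theorem unitsMap_nat {N f : ℕ} [NeZero N] (hf : f ∣ N) (a : (ZMod N)ˣ) (l : ℕ)
    (h : (a : ZMod N) = l) : ((ZMod.unitsMap hf a : (ZMod f)ˣ) : ZMod f) = l := by
  rw [ZMod.unitsMap_val, h, ZMod.cast_natCast hf]

private theorem unitsMap_neg {N f : ℕ} [NeZero N] (hf : f ∣ N) :
    ZMod.unitsMap hf (-1) = -1 := by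
  apply Units.ext
  rw [ZMod.unitsMap_val, Units.val_neg, Units.val_one, Units.val_neg, Units.val_one,
    ZMod.cast_neg hf, ZMod.cast_one hf]

private theorem equ_div {N : ℕ} [NeZero N] (α β : (ZMod N)ˣ →* Eˣ) (r : (ZMod N)ˣ) (x : E) :
    Equ ((((β / α : (ZMod N)ˣ →* Eˣ) r : Eˣ) : E) * x) 1 ↔
      Equ (((β r : Eˣ) : E) * x) (((α r : Eˣ) : E)) := by
  have h1 : (((β / α : (ZMod N)ˣ →* Eˣ) r : Eˣ) : E) * (α r : Eˣ) = (β r : Eˣ) := by
    change ((β r / α r : Eˣ) : E) * α r = β r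
    rw [← Units.val_mul, div_mul_cancel]
  have h2 : ((β r : Eˣ) : E) * x - ((α r : Eˣ) : E) =
      ((α r : Eˣ) : E) * ((((β / α : (ZMod N)ˣ →* Eˣ) r : Eˣ) : E) * x - 1) := by
    rw [← h1]
    ring
  unfold Equ
  rw [h2, norm_mul, norm_chi, one_mul]

end

theorem fin_main (p : ℕ) [Fact p.Prime] (hp : p ≠ 2) (S : Finset ℕ) (hS : ∀ l ∈ S, l.Prime)
    (hpS : p ∉ S) : ∃ N₀ : ℕ, 0 < N₀ ∧ ∀ (N n : ℕ) [NeZero N],
      (∀ l : ℕ, l.Prime → l ∣ N → l ∈ S) → 1 ≤ n → n < p →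
      ∀ {E : Type} [NormedField E] [IsUltrametricDist E] [CompleteSpace E] [NormedAlgebra ℚ_[p] E]
        (V : Gam →* GL2 E) (α β : (ZMod N)ˣ →* Eˣ) (j : ℕ), Continuous V → Even2 V →
        SumType p n N α β j V →
        (∀ (ℓ : ℕ) (a : (ZMod N)ˣ), ℓ.Prime → ℓ ≠ p → ℓ ∉ S → (a : ZMod N) = ℓ →
          Equ (β a * (ℓ : E) ^ (n - 1)) (α a : E) → TameAt p ℓ V) →
        ¬ Line V → ∀ r : (ZMod N)ˣ, (r : ZMod N).val ≡ 1 [MOD N.gcd N₀] →
          Equ (β r : E) (α r) := by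
  have hpp : p.Prime := Fact.out
  obtain ⟨B, hB⟩ := core p hp S hS hpS
  obtain ⟨B', hB'⟩ := eul hpp hS
  refine ⟨(max B B').factorial, Nat.factorial_pos _, ?_⟩
  intro N n _ hNS hn hnp E _ _ _ _ V α β j hV heven hsum htame hline r hr
  by_contra hcon
  have hpN : ¬ p ∣ N := fun h => hpS (hNS p hpp h)
  obtain ⟨s, m, hm, hsm⟩ := teiPow N p E
  obtain ⟨hγ1, hγm⟩ := hsm (β / α)
  obtain ⟨K, _, _, _, π, hπ⟩ := res p E
  have hγcg : ∀ a, Cg ((((β / α : (ZMod N)ˣ →* Eˣ) ^ s) a : Eˣ) : E)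
      (((β / α : (ZMod N)ˣ →* Eˣ) a : Eˣ) : E) := hγ1
  generalize hγ : ((β / α : (ZMod N)ˣ →* Eˣ) ^ s) = γ at hγm hγcg
  clear hγ1 hsm hγ
  obtain ⟨χ, hχ⟩ := red_c π γ
  have hker : ∀ a, χ a = 1 → γ a = 1 := by
    intro a ha
    exact Units.ext (rt hm (hγm a) ((chi_one hπ hχ a).1 ha))
  obtain ⟨f, _, hf, γ', χ', hγf, hχf, hprim⟩ := cond γ χ hker
  have hred' : RedOf π γ' χ' := by
    intro u h
    obtain ⟨a, rfl⟩ := ZMod.unitsMap_surjective hf u
    have h1 := hχ a (mem_chi γ a)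
    rw [hχf] at h1
    refine h1.trans ?_
    congr 1
    apply Subtype.ext
    rw [hγf]
    rfl
  have hχ1 : ∀ a, χ a = χ' (ZMod.unitsMap hf a) := fun a => by
    rw [hχf]
    rfl
  have hγ1 : ∀ a, γ a = γ' (ZMod.unitsMap hf a) := fun a => by
    rw [hγf]
    rfl
  have hfS : InS S f := fun l hl hlf => hNS l hl (hlf.trans hf)
  -- the conductor is large
  have hfB : max B B' < f := by
    by_contra hle
    have h1 : f ∣ (max B B').factorial :=
      Nat.dvd_factorial (Nat.pos_of_ne_zero (NeZero.ne f)) (not_lt.1 hle)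
    have h2 := unitsMap_eq_one hf r (hr.of_dvd (Nat.dvd_gcd hf h1))
    have h3 := hγcg r
    rw [hγ1, h2, map_one, Units.val_one] at h3
    apply hcon
    have h4 := (equ_div α β r 1).1 (by rw [mul_one]; exact h3.symm)
    rwa [mul_one] at h4
  -- parity
  have hpar : ((χ' (-1) : Kˣ) : K) = (-1) ^ n := by
    have h1 := par_e p N n hp V heven α β j hsum
    have h2 := (chi_eq hπ hχ (-1) ((-1) ^ n)).2 (by
      have h3 := hγcg (-1)
      rw [h1] at h3
      exact h3)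
    rw [hχ1, unitsMap_neg hf, map_pow, map_neg, map_one] at h2
    exact h2
  -- the Bernoulli number at the conductor
  have hpf : ¬ p ∣ f := fun h => hpN (h.trans hf)
  have hχ'ne : χ' ≠ 1 := by
    intro h
    have h1 : f ≠ 1 := by
      intro h2
      rcases Nat.lt_or_ge 1 2 with h3 | h3
      · -- `f > B'` and `f > B`: use the Euler bound for `l = p`
        have h4 : (χ' 1) ^ (p - 1) ≠ 1 := by
          refine hB' f (lt_of_le_of_lt (le_max_right _ _) hfB) hfS K χ' hprim p hpp (Or.inr rfl) 1 ?_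
          subst h2
          exact Subsingleton.elim _ _
        rw [map_one, one_pow] at h4
        exact h4 rfl
      · omega
    obtain ⟨l, hl, hlf⟩ := Nat.exists_prime_and_dvd h1
    obtain ⟨u, _, hu⟩ := hprim l hl hlf
    exact hu (by rw [h]; rfl)
  have hγ'ne : γ' ≠ 1 := by
    intro h
    apply hχ'ne
    ext u
    rw [MonoidHom.one_apply, Units.val_one]
    have h1 := (chi_one hπ hred' u).2 (by
      rw [h, MonoidHom.one_apply, Units.val_one]
      unfold Equ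
      rw [sub_self, norm_zero]
      exact zero_lt_one)
    rw [h1, Units.val_one]
  obtain ⟨g, A, c, hg, hAd, hA1, hc, hG, hfin⟩ := bri p π hπ hn hnp hpf γ' hγ'ne χ' hred'
  have hgb : ‖genBern f n γ'‖ = 1 :=
    hfin (hB f n (lt_of_le_of_lt (le_max_left _ _) hfB) hfS hn hnp K χ' g A c hprim hpar hg hAd hA1
      hc hG)
  -- Euler factors
  have heul : ∀ l : ℕ, l.Prime → (l ∈ S ∨ l = p) → ∀ u : (ZMod f)ˣ, (u : ZMod f) = l →
      χ' u ^ (p - 1) ≠ 1 :=
    hB' f (lt_of_le_of_lt (le_max_right _ _) hfB) hfS K χ' hprim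
  have hE : ∀ l : ℕ, l.Prime → l ∈ S → ∀ u : (ZMod f)ˣ, (u : ZMod f) = l →
      ¬ Equ (((γ' u : Eˣ) : E) * (l : E) ^ (n - 1)) 1 := by
    intro l hl hlS u hu h
    apply heul l hl (Or.inl hlS) u hu
    have hlE : (l : E) ∈ OE E := norm_natCast_le_one l
    have h1 : ((χ' u : Kˣ) : K) * (l : K) ^ (n - 1) = 1 := by
      have h2 : π (⟨γ' u, mem_chi γ' u⟩ * ⟨(l : E), hlE⟩ ^ (n - 1)) = π 1 := (pi_eq hπ).2 h
      rw [map_mul, map_pow, map_one, ← hred' u (mem_chi γ' u)] at h2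
      have h3 : (⟨(l : E), hlE⟩ : OE E) = ((l : ℕ) : OE E) := Subtype.ext rfl
      rw [h3, map_natCast] at h2
      exact h2
    have hlp : l ≠ p := fun h => hpS (h ▸ hlS)
    have h4 : ((l : K)) ^ (p - 1) = 1 := by
      have h5 : (l : ZMod p) ^ (p - 1) = 1 := by
        apply ZMod.pow_card_sub_one_eq_one
        rw [Ne, ZMod.natCast_eq_zero_iff]
        exact fun h => hlp ((Nat.prime_dvd_prime_iff_eq hpp hl).1 h).symm
      have h6 := congrArg (ZMod.castHom (dvd_refl p) K) h5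
      rwa [map_pow, map_natCast, map_one] at h6
    apply Units.ext
    rw [Units.val_pow_eq_pow_val, Units.val_one]
    have h7 := congrArg (fun y : K => y ^ (p - 1)) h1
    simp only [mul_pow, one_pow] at h7
    rwa [← pow_mul, mul_comm (n - 1) (p - 1), pow_mul, h4, one_pow, mul_one] at h7
  have hgbN : ‖genBern N n γ‖ = 1 := by
    have h1 := tt_b (p := p) hf hn γ' (fun l hl hlN => hE l hl (hNS l hl hlN)) hgb
    rwa [← hγf] at h1
  -- the criterion
  have hne1 : (β / α : (ZMod N)ˣ →* Eˣ) ≠ 1 := by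
    intro h
    apply hcon
    have h4 := (equ_div α β r 1).1 (by
      rw [h, mul_one, MonoidHom.one_apply, Units.val_one]
      unfold Equ
      rw [sub_self, norm_zero]
      exact zero_lt_one)
    rwa [mul_one] at h4
  have hγne : γ ≠ 1 := by
    intro h
    apply hcon
    have h3 := hγcg r
    rw [h, MonoidHom.one_apply, Units.val_one] at h3
    have h4 := (equ_div α β r 1).1 (by rw [mul_one]; exact h3.symm)
    rwa [mul_one] at h4
  have hTT : Cg (TT N n (β / α) : E) (TT N n γ) :=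
    tt_cg N n p hnp hpN (β / α) γ (fun _ => hne1) (fun _ => hγne) (fun a => (hγcg a).symm)
  have hgbV : ‖genBern N n (β / α)‖ = 1 := hTT.norm_eq hgbN
  -- congruences for `γ`
  have hγequ : ∀ (a : (ZMod N)ˣ) (x : E), ‖x‖ ≤ 1 → Equ ((β a : E) * x) (α a) →
      Equ (((γ' (ZMod.unitsMap hf a) : Eˣ) : E) * x) 1 := by
    intro a x hx h
    have h1 : Cg ((((β / α : (ZMod N)ˣ →* Eˣ) a : Eˣ) : E) * x) 1 := (equ_div α β a x).2 h
    rw [← hγ1 a]
    exact (Cg.mul (hγcg a) Cg.rfl (norm_chi _ a).le hx).trans h1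
  apply hline
  have hn' : ∃ n' : ℕ, 1 ≤ n' ∧ n' < p ∧ p - 1 ∣ n + n' := by
    rcases Nat.lt_or_ge n (p - 1) with h | h
    · exact ⟨p - 1 - n, by omega, by omega, ⟨1, by omega⟩⟩
    · exact ⟨p - 1, by omega, by omega, ⟨2, by omega⟩⟩
  obtain ⟨n', h1', h2', h3'⟩ := hn'
  refine critMain p N n n' hp hpN hn hnp h1' h2' h3' V hV heven α β j hsum ?_
    (Or.inl ⟨hgbV, ?_, ?_⟩)
  · rintro ⟨_, h⟩
    apply hcon
    have h1 := h r
    unfold Equ at h1 ⊢
    rwa [norm_sub_rev]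
  · intro hn1 a ha hequ
    have h1 := hγequ a 1 norm_one.le (by rw [mul_one]; exact hequ)
    rw [mul_one] at h1
    have h2 := (chi_one hπ hred' _).2 h1
    exact heul p hpp (Or.inr rfl) (ZMod.unitsMap hf a) (unitsMap_nat hf a p ha)
      (by rw [h2, one_pow])
  · intro ℓ a hℓ hℓp ha hequ
    by_cases hℓS : ℓ ∈ S
    · exfalso
      refine hE ℓ hℓ hℓS (ZMod.unitsMap hf a) (unitsMap_nat hf a ℓ ha) ?_
      refine hγequ a _ ?_ hequ
      rw [norm_pow]
      exact pow_le_one₀ (norm_nonneg _) (norm_natCast_le_one _)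
    · exact htame ℓ a hℓ hℓp hℓS ha hequ

end Pool.Agent.FRD
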