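import Pool.Agent.FRD.Defs

/-!
# FRD-Ker: a unit `u = 1` modulo `f / l` satisfies `u ^ (l (l - 1)) = 1`
-/

namespace Pool.Agent.FRD

private lemma ker_int {d l : ℕ} (hl : l.Prime) (v : ℤ) (hv : IsCoprime v (l : ℤ))
    (h : (d : ℤ) ∣ v - 1) : ((d * l : ℕ) : ℤ) ∣ v ^ (l * (l - 1)) - 1 := by
  push_cast
  by_cases hld : (l : ℤ) ∣ (d : ℤ)
  · have h1 : (d : ℤ) * l ∣ v ^ l - 1 := by
      rw [← mul_geom_sum]
      refine mul_dvd_mul h ?_
      have h2 : (l : ℤ) ∣ v - 1 := hld.trans h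
      have h3 : (l : ℤ) ∣ ∑ i ∈ Finset.range l, (v ^ i - 1) := by
        refine Finset.dvd_sum fun i _ => ?_
        have h4 := sub_dvd_pow_sub_pow v 1 i
        rw [one_pow] at h4
        exact h2.trans h4
      rw [Finset.sum_sub_distrib] at h3
      have h5 : ∑ _i ∈ Finset.range l, (1 : ℤ) = l := by simp
      rw [h5] at h3
      have h6 := dvd_add h3 (dvd_refl (l : ℤ))
      rwa [sub_add_cancel] at h6
    have h7 := sub_dvd_pow_sub_pow (v ^ l) 1 (l - 1)
    rw [one_pow, ← pow_mul] at h7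
    exact h1.trans h7
  · have hc : IsCoprime (d : ℤ) (l : ℤ) := by
      rw [Nat.isCoprime_iff_coprime]
      refine Nat.Coprime.symm ((Nat.Prime.coprime_iff_not_dvd hl).2 fun h8 => hld ?_)
      exact_mod_cast h8
    refine hc.mul_dvd ?_ ?_
    · have h7 := sub_dvd_pow_sub_pow v 1 (l * (l - 1))
      rw [one_pow] at h7
      exact h.trans h7
    · have h8 : (l : ℤ) ∣ v ^ (l - 1) - 1 := (Int.ModEq.pow_card_sub_one_eq_one hl hv).symm.dvd
      have h7 := sub_dvd_pow_sub_pow (v ^ (l - 1)) 1 l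
      rw [one_pow, ← pow_mul, mul_comm (l - 1) l] at h7
      exact h8.trans h7

theorem ker_pow {f l : ℕ} [NeZero f] (hl : l.Prime) (hlf : l ∣ f) (u : (ZMod f)ˣ)
    (h : OneMod (f / l) u) : u ^ (l * (l - 1)) = 1 := by
  have hv : IsCoprime (((u : ZMod f).val : ℕ) : ℤ) (l : ℤ) := by
    rw [Nat.isCoprime_iff_coprime]
    exact Nat.Coprime.coprime_dvd_right hlf (ZMod.val_coe_unit_coprime u)
  have h1 := ker_int hl _ hv h
  rw [Nat.div_mul_cancel hlf] at h1
  rw [← ZMod.intCast_zmod_eq_zero_iff_dvd] at h1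
  push_cast at h1
  rw [ZMod.natCast_zmod_val, sub_eq_zero] at h1
  refine Units.ext ?_
  rw [Units.val_pow_eq_pow_val, h1, Units.val_one]

end Pool.Agent.FRD
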