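import Mathlib

/-!
# FRD-Nzd: `1 - c [h]` is not a zero divisor in the group algebra if `h` has infinite order
-/

namespace Pool.Agent.FRD

theorem nzd {K Γ : Type} [Field K] [AddCommGroup Γ] (h : Γ) (hh : ∀ m : ℕ, m ≠ 0 → m • h ≠ 0)
    (c : K) (hc : c ≠ 0) (Y : AddMonoidAlgebra K Γ)
    (hY : (1 - AddMonoidAlgebra.single h c) * Y = 0) : Y = 0 := by
  by_contra hne
  have h1 : Y = AddMonoidAlgebra.single h c * Y := by
    rw [sub_mul, one_mul] at hY
    exact sub_eq_zero.mp hY
  have h2 : ∀ g : Γ, Y.coeff (h + g) = c * Y.coeff g := by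
    intro g
    have h3 := AddMonoidAlgebra.coeff_single_mul_apply Y c h (h + g)
    rw [← h1, neg_add_cancel_left] at h3
    exact h3
  obtain ⟨g, hg⟩ : ∃ g, Y.coeff g ≠ 0 := by
    by_contra hall
    push Not at hall
    exact hne (AddMonoidAlgebra.coeff_eq_zero.mp (Finsupp.ext hall))
  have h4 : ∀ k : ℕ, Y.coeff (k • h + g) ≠ 0 := by
    intro k
    induction k with
    | zero => rwa [zero_smul, zero_add]
    | succ k ih =>
      have e : (k + 1) • h + g = h + (k • h + g) := by
        rw [succ_nsmul', add_assoc]
      rw [e, h2]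
      exact mul_ne_zero hc ih
  have hinj : Function.Injective (fun k : ℕ => k • h + g) := by
    intro j k hjk
    have hjk' : j • h = k • h := add_right_cancel hjk
    by_contra hne2
    rcases Nat.lt_or_gt_of_ne hne2 with hlt | hlt
    · apply hh (k - j) (by omega)
      have e : k • h = (k - j) • h + j • h := by
        rw [← add_nsmul, Nat.sub_add_cancel hlt.le]
      rw [← hjk'] at e
      have e2 : (0 : Γ) + j • h = (k - j) • h + j • h := by rw [zero_add]; exact e
      exact (add_right_cancel e2).symm
    · apply hh (j - k) (by omega)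
      have e : j • h = (j - k) • h + k • h := by
        rw [← add_nsmul, Nat.sub_add_cancel hlt.le]
      rw [hjk'] at e
      have e2 : (0 : Γ) + k • h = (j - k) • h + k • h := by rw [zero_add]; exact e
      exact (add_right_cancel e2).symm
  have hmem : ∀ k : ℕ, (fun k : ℕ => k • h + g) k ∈ (Y.coeff.support : Set Γ) := by
    intro k
    exact Finset.mem_coe.mpr (Finsupp.mem_support_iff.mpr (h4 k))
  exact (Set.infinite_of_injective_forall_mem hinj hmem) (Finset.finite_toSet _)

end Pool.Agent.FRD
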