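import Mathlib

/-!
# FRD-Rat: a rational `l`-adic root of unity is `1` or `-1` (proved)
-/

namespace Pool.Agent.FRD

theorem rat_root (l : ℕ) [Fact l.Prime] {T : ℕ} (hT : T ≠ 0) (η : ℤ_[l]) (hη : η ^ T = 1) (m : ℕ)
    (hm : m ≠ 0) (k : ℤ) (h : (m : ℤ_[l]) * η = (k : ℤ_[l])) : η = 1 ∨ η = -1 := by
  have h1 : (((m : ℤ) ^ T : ℤ) : ℤ_[l]) = ((k ^ T : ℤ) : ℤ_[l]) := by
    push_cast
    rw [← h, mul_pow, hη, mul_one]
  have h2 : ((m : ℤ)) ^ T = k ^ T := by exact_mod_cast h1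
  have h3 : (m : ℤ).natAbs ^ T = k.natAbs ^ T := by
    rw [← Int.natAbs_pow, ← Int.natAbs_pow, h2]
  have h4 : (m : ℤ).natAbs = k.natAbs := Nat.pow_left_injective hT h3
  have hm0 : (m : ℤ_[l]) ≠ 0 := by exact_mod_cast hm
  rcases Int.natAbs_eq_natAbs_iff.mp h4 with h5 | h5
  · left
    apply mul_left_cancel₀ hm0
    rw [h, mul_one, ← h5]
    push_cast
    rfl
  · right
    apply mul_left_cancel₀ hm0
    rw [h]
    have h6 : k = -(m : ℤ) := by rw [h5, neg_neg]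
    rw [h6]
    push_cast
    ring

end Pool.Agent.FRD
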