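import Pool.Agent.FRD.Lte

/-!
# FRD-Cnt: few solutions of `x ^ T = 1` modulo `f`
-/

open Finset

namespace Pool.Agent.FRD

private theorem cnt_oneMod {f d P : ℕ} [NeZero f] (hd : d ∣ f) (hP : d ∣ P) {x y : (ZMod f)ˣ}
    (h : (x : ZMod f).val % P = (y : ZMod f).val % P) : OneMod d (x * y⁻¹) := by
  rw [oneMod_iff hd]
  have h1 : ZMod.castHom hd (ZMod d) (x : ZMod f) = ZMod.castHom hd (ZMod d) (y : ZMod f) := by
    rw [ZMod.castHom_apply, ZMod.castHom_apply, ZMod.cast_eq_val, ZMod.cast_eq_val, ZMod.natCast_eq_natCast_iff]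
    exact Nat.ModEq.of_dvd hP h
  rw [Units.val_mul, map_mul, h1, ← map_mul, Units.mul_inv, map_one]

private theorem cnt_eq {S : Finset ℕ} {f : ℕ} [NeZero f] (hf : InS S f) {T : ℕ} (hT : T ≠ 0) {x y : (ZMod f)ˣ}
    (hx : x ^ T = 1) (hy : y ^ T = 1) (h : (x : ZMod f).val % P0 S = (y : ZMod f).val % P0 S) :
    (T : ZMod f) * (x : ZMod f) = (T : ZMod f) * (y : ZMod f) := by
  have hf0 : f ≠ 0 := NeZero.ne f
  have hu : (x * y⁻¹) ^ T = 1 := by
    rw [mul_pow, inv_pow, hx, hy, inv_one, mul_one]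
  have h1 := lte hf0 hT (((x * y⁻¹ : (ZMod f)ˣ) : ZMod f).val : ℤ) (fun l hl hlf => ?_) (fun h4 => ?_)
    (val_pow_dvd _ T hu)
  · rw [← ZMod.intCast_zmod_eq_zero_iff_dvd] at h1
    push_cast at h1
    rw [ZMod.natCast_zmod_val] at h1
    have h2 : (x : ZMod f) * ((y⁻¹ : (ZMod f)ˣ) : ZMod f) * (y : ZMod f) = (x : ZMod f) := by
      rw [mul_assoc, Units.inv_mul, mul_one]
    linear_combination (y : ZMod f) * h1 - (T : ZMod f) * h2
  · exact cnt_oneMod hlf ((Finset.dvd_prod_of_mem _ (hf l hl hlf)).trans (Dvd.intro_left 4 rfl)) h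
  · exact cnt_oneMod h4 (Dvd.intro _ rfl) h

open Classical in
theorem cnt {S : Finset ℕ} (hS : ∀ l ∈ S, l.Prime) {f : ℕ} [NeZero f] (hf : InS S f) {T : ℕ}
    (hT : T ≠ 0) : ((univ : Finset (ZMod f)ˣ).filter fun x => x ^ T = 1).card ≤ P0 S * T := by
  have hP : 0 < P0 S := by
    unfold P0
    have h1 : 0 < ∏ l ∈ S, l := Finset.prod_pos fun l hl => (hS l hl).pos
    omega
  have key := Finset.card_le_mul_card_image_of_maps_to
    (s := (univ : Finset (ZMod f)ˣ).filter fun x => x ^ T = 1) (t := range (P0 S))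
    (f := fun x : (ZMod f)ˣ => (x : ZMod f).val % P0 S) (fun x _ => mem_range.2 (Nat.mod_lt _ hP)) T ?_
  · rw [card_range, mul_comm] at key
    exact key
  · intro b _
    rcases Finset.eq_empty_or_nonempty (((univ : Finset (ZMod f)ˣ).filter fun x => x ^ T = 1).filter
      fun x : (ZMod f)ˣ => (x : ZMod f).val % P0 S = b) with h0 | ⟨y, hy⟩
    · rw [h0, card_empty]
      exact Nat.zero_le _
    · rw [mem_filter, mem_filter] at hy
      refine le_trans ?_ (IsAddCyclic.card_nsmul_eq_zero_le (α := ZMod f) (n := T) (Nat.pos_of_ne_zero hT))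
      refine Finset.card_le_card_of_injOn (fun x : (ZMod f)ˣ => (x : ZMod f) - (y : ZMod f)) ?_ ?_
      · intro x hx
        rw [Finset.mem_coe, mem_filter, mem_filter] at hx
        rw [Finset.mem_coe, mem_filter]
        refine ⟨mem_univ _, ?_⟩
        have h1 := cnt_eq hf hT hx.1.2 hy.1.2 (hx.2.trans hy.2.symm)
        rw [nsmul_eq_mul, mul_sub, h1, sub_self]
      · intro x _ x' _ h
        exact Units.val_injective (sub_left_injective h)

end Pool.Agent.FRD
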