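import Pool.Agent.FRD.DefsB

/-!
# FRD-Evl: the evaluation of the cleared relation
-/

open Finset Polynomial

namespace Pool.Agent.FRD

private theorem evl_one {K : Type} [Field K] {l : ℕ} [Fact l.Prime] {b : ℕ} {ξ : K}
    (hξ : ξ ^ (l ^ b) = 1) (z : K) : ev l b ξ hξ (mon z 1) = z * ξ := by
  rw [ev_mon, map_one]
  congr 1
  have h0 : NeZero (l ^ b) := ⟨pow_ne_zero _ (Fact.out : l.Prime).ne_zero⟩
  rw [ZMod.val_one_eq_one_mod]
  have := evHom.pow_mod_of hξ 1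
  rw [← this, pow_one]

private theorem evl_inv {K : Type} [Field K] {l : ℕ} [Fact l.Prime] {b : ℕ} {ξ : K}
    (hξ : ξ ^ (l ^ b) = 1) {z : K} (hz : z ≠ 0) : ev l b ξ hξ (mon z⁻¹ (-1)) = (z * ξ)⁻¹ := by
  have h1 : (mon z 1 : AddMonoidAlgebra K ℤ_[l]) * mon z⁻¹ (-1) = 1 := by
    unfold mon
    rw [AddMonoidAlgebra.single_mul_single, mul_inv_cancel₀ hz, add_neg_cancel]
    rfl
  have h2 := congrArg (ev l b ξ hξ) h1
  rw [map_mul, map_one, evl_one] at h2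
  exact eq_inv_of_mul_eq_one_right h2

private theorem evl_aeval {K : Type} [Field K] {l : ℕ} [Fact l.Prime] {b : ℕ} {ξ : K}
    (hξ : ξ ^ (l ^ b) = 1) (A : K[X]) (y : AddMonoidAlgebra K ℤ_[l]) :
    ev l b ξ hξ (aeval y A) = A.eval (ev l b ξ hξ y) := by
  rw [← Polynomial.aeval_algHom_apply, Polynomial.coe_aeval_eq_eval]

theorem evl {K : Type} [Field K] (l : ℕ) [Fact l.Prime] (b : ℕ) {ι : Type} (s : Finset ι)
    (n : ℕ) (A : K[X]) (z : K) (hz : z ≠ 0) (c ρ : ι → K) (η : ι → ℤ_[l]) (ξ : K)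
    (hξ : ξ ^ (l ^ b) = 1) (h1 : z * ξ ≠ 1)
    (hi : ∀ i ∈ s, ρ i * ξ ^ (PadicInt.toZModPow b (η i)).val ≠ 1)
    (h : (A.eval (z * ξ) + (z * ξ) ^ n * A.eval (z * ξ)⁻¹) / (1 - z * ξ) ^ n +
      ∑ i ∈ s, c i * (A.eval (ρ i * ξ ^ (PadicInt.toZModPow b (η i)).val) /
        (1 - ρ i * ξ ^ (PadicInt.toZModPow b (η i)).val) ^ n) = 0) :
    ev l b ξ hξ (YY s n A z c ρ η) = 0 := by
  classical
  unfold YY
  simp only [map_add, map_mul, map_pow, map_sub, map_one, map_prod, map_sum, map_smul, evl_aeval, evl_one, evl_inv hξ hz, ev_mon hξ (ρ _),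
    smul_eq_mul]
  set w := z * ξ with hw
  set W : ι → K := fun i => ρ i * ξ ^ (PadicInt.toZModPow b (η i)).val with hW
  have hw1 : (1 - w) ^ n ≠ 0 := pow_ne_zero _ (sub_ne_zero.2 (Ne.symm h1))
  have hW1 : ∀ i ∈ s, (1 - W i) ^ n ≠ 0 := fun i hs => pow_ne_zero _ (sub_ne_zero.2 (Ne.symm (hi i hs)))
  have h2 : (A.eval w + w ^ n * A.eval w⁻¹) * ∏ i ∈ s, (1 - W i) ^ n +
      (1 - w) ^ n * ∑ i ∈ s, (c i * A.eval (W i)) * ∏ j ∈ s.erase i, (1 - W j) ^ n =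
      ((A.eval w + w ^ n * A.eval w⁻¹) / (1 - w) ^ n + ∑ i ∈ s, c i * (A.eval (W i) / (1 - W i) ^ n)) *
        ((1 - w) ^ n * ∏ i ∈ s, (1 - W i) ^ n) := by
    have e1 : (A.eval w + w ^ n * A.eval w⁻¹) / (1 - w) ^ n * ((1 - w) ^ n * ∏ i ∈ s, (1 - W i) ^ n) =
        (A.eval w + w ^ n * A.eval w⁻¹) * ∏ i ∈ s, (1 - W i) ^ n := by
      rw [← mul_assoc, div_mul_cancel₀ _ hw1]
    have e2 : (∑ i ∈ s, c i * (A.eval (W i) / (1 - W i) ^ n)) * ∏ i ∈ s, (1 - W i) ^ n =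
        ∑ i ∈ s, (c i * A.eval (W i)) * ∏ j ∈ s.erase i, (1 - W j) ^ n := by
      rw [Finset.sum_mul]
      refine Finset.sum_congr rfl fun i hs => ?_
      rw [← Finset.mul_prod_erase s _ hs, ← mul_assoc, mul_div_assoc', div_mul_cancel₀ _ (hW1 i hs)]
    rw [add_mul ((A.eval w + w ^ n * A.eval w⁻¹) / (1 - w) ^ n), e1, ← e2]
    ring
  rw [h2]
  have h3 : (A.eval w + w ^ n * A.eval w⁻¹) / (1 - w) ^ n + ∑ i ∈ s, c i * (A.eval (W i) / (1 - W i) ^ n) = 0 := h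
  rw [h3, zero_mul]

end Pool.Agent.FRD
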