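import Pool.Agent.FRD.Defs

/-!
# FRD-Four: Fourier transform of the relation
-/

open Finset

namespace Pool.Agent.FRD

theorem four {K : Type} [Field K] {f q : ℕ} [NeZero f] (χ : (ZMod f)ˣ →* Kˣ) (g : ZMod f → K)
    (h : ∀ y : ZMod f, ∑ x ∈ HH q χ, (χ x : K) * g (x * y) = 0) (z : K) (hz : z ^ f = 1) :
    ∑ x ∈ HH q χ, (((χ x)⁻¹ : Kˣ) : K) * Gs g (z ^ (x : ZMod f).val) = 0 := by
  have key : ∀ x : (ZMod f)ˣ, Gs g (z ^ (x : ZMod f).val) =
      ∑ y : ZMod f, z ^ y.val * g (((x⁻¹ : (ZMod f)ˣ) : ZMod f) * y) := by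
    intro x
    unfold Gs
    rw [← Equiv.sum_comp (Units.mulLeft x)
      (fun y : ZMod f => z ^ y.val * g (((x⁻¹ : (ZMod f)ˣ) : ZMod f) * y))]
    refine Finset.sum_congr rfl fun y _ => ?_
    rw [Units.mulLeft_apply, Units.inv_mul_cancel_left, ZMod.val_mul, ← pow_mul,
      ← pow_eq_pow_mod _ hz]
  have h1 : ∑ x ∈ HH q χ, (((χ x)⁻¹ : Kˣ) : K) * Gs g (z ^ (x : ZMod f).val) =
      ∑ y : ZMod f, z ^ y.val * ∑ x ∈ HH q χ, (χ x⁻¹ : K) *
        g (((x⁻¹ : (ZMod f)ˣ) : ZMod f) * y) := by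
    rw [Finset.sum_congr rfl fun x _ => by rw [key x, Finset.mul_sum], Finset.sum_comm]
    refine Finset.sum_congr rfl fun y _ => ?_
    rw [Finset.mul_sum]
    refine Finset.sum_congr rfl fun x _ => ?_
    rw [map_inv]
    ring
  rw [h1]
  refine Finset.sum_eq_zero fun y _ => ?_
  have h2 : ∑ x ∈ HH q χ, (χ x⁻¹ : K) * g (((x⁻¹ : (ZMod f)ˣ) : ZMod f) * y) =
      ∑ x ∈ HH q χ, (χ x : K) * g (x * y) := by
    refine Finset.sum_bij' (fun x _ => x⁻¹) (fun x _ => x⁻¹) ?_ ?_ ?_ ?_ ?_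
    · intro x hx
      rw [mem_HH] at hx ⊢
      rw [map_inv, inv_pow, hx, inv_one]
    · intro x hx
      rw [mem_HH] at hx ⊢
      rw [map_inv, inv_pow, hx, inv_one]
    · intro x _
      exact inv_inv x
    · intro x _
      exact inv_inv x
    · intro x _
      rfl
  rw [h2, h y, mul_zero]

end Pool.Agent.FRD
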