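import Pool.Agent.FRD.Defs

/-!
# FRD-Hens: approximation by roots of unity

Hensel's lemma for `X ^ T - 1` and the expansion of the polynomial at the root.
-/

namespace Pool.Agent.FRD

open Polynomial in
/-- The norm of the value is the distance to the root times the norm of the derivative. -/
private theorem hens_dist (l : ℕ) [Fact l.Prime] (F : ℤ_[l][X]) (x z : ℤ_[l]) (hz : F.eval z = 0)
    (h1 : ‖x - z‖ < ‖F.derivative.eval z‖) : ‖F.eval x‖ = ‖x - z‖ * ‖F.derivative.eval z‖ := by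
  obtain ⟨k, hk⟩ := F.binomExpansion z (x - z)
  rw [add_sub_cancel, hz, zero_add] at hk
  have h2 : F.eval x = (x - z) * (F.derivative.eval z + k * (x - z)) := by
    rw [hk]
    ring
  have h3 : ‖k * (x - z)‖ < ‖F.derivative.eval z‖ := by
    rw [norm_mul]
    calc ‖k‖ * ‖x - z‖ ≤ 1 * ‖x - z‖ := mul_le_mul_of_nonneg_right (PadicInt.norm_le_one k) (norm_nonneg _)
      _ < _ := by rwa [one_mul]
  rw [h2, norm_mul, PadicInt.norm_add_eq_max_of_ne h3.ne', max_eq_left h3.le]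

theorem hens (l : ℕ) [Fact l.Prime] {T : ℕ} (hT : T ≠ 0) (b : ℕ) :
    ∃ A : ℕ, ∀ a : ℕ, A ≤ a → ∀ x : ℤ, (l : ℤ) ^ a ∣ x ^ T - 1 →
      ∃ η : ℤ_[l], η ^ T = 1 ∧ (l : ℤ_[l]) ^ b ∣ η - (x : ℤ_[l]) := by
  have hl : l.Prime := Fact.out
  have hl1 : (1 : ℝ) < l := by exact_mod_cast hl.one_lt
  have hl0 : (0 : ℝ) < l := by linarith
  have hT' : (T : ℤ_[l]) ≠ 0 := by exact_mod_cast hT
  obtain ⟨v, hv⟩ : ∃ v : ℕ, ‖(T : ℤ_[l])‖ = (l : ℝ) ^ (-v : ℤ) := ⟨_, PadicInt.norm_eq_zpow_neg_valuation hT'⟩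
  refine ⟨2 * v + b + 1, fun a ha x hx => ?_⟩
  have hlx : ¬ (l : ℤ) ∣ x := by
    intro h
    have h1 : (l : ℤ) ∣ x ^ T - 1 := (dvd_pow_self _ (by omega)).trans hx
    have h2 : (l : ℤ) ∣ 1 := by
      have h3 := dvd_sub (dvd_pow h hT) h1
      rwa [sub_sub_cancel] at h3
    have h4 : (l : ℤ) ≤ 1 := Int.le_of_dvd one_pos h2
    have h5 := hl.one_lt
    omega
  have hx1 : ‖(x : ℤ_[l])‖ = 1 := by
    rcases (PadicInt.norm_le_one (x : ℤ_[l])).lt_or_eq with h | h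
    · exact absurd ((PadicInt.norm_int_lt_one_iff_dvd x).1 h) hlx
    · exact h
  let F : Polynomial ℤ_[l] := Polynomial.X ^ T - 1
  have hF : ∀ y : ℤ_[l], F.eval y = y ^ T - 1 := fun y => by simp [F]
  have hF' : F.derivative.eval (x : ℤ_[l]) = T * (x : ℤ_[l]) ^ (T - 1) := by
    simp [F, Polynomial.derivative_X_pow]
  have hnF' : ‖F.derivative.eval (x : ℤ_[l])‖ = (l : ℝ) ^ (-v : ℤ) := by
    rw [hF', norm_mul, norm_pow, hx1, one_pow, mul_one, hv]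
  have hnF : ‖F.eval (x : ℤ_[l])‖ ≤ (l : ℝ) ^ (-a : ℤ) := by
    have h1 := (PadicInt.norm_int_le_pow_iff_dvd (p := l) (k := x ^ T - 1) (n := a)).2 (by exact_mod_cast hx)
    rw [hF]
    push_cast at h1
    exact h1
  have hlt : ‖F.aeval (x : ℤ_[l])‖ < ‖F.derivative.aeval (x : ℤ_[l])‖ ^ 2 := by
    rw [Polynomial.coe_aeval_eq_eval, hnF']
    refine hnF.trans_lt ?_
    rw [← zpow_natCast, ← zpow_mul]
    refine zpow_lt_zpow_right₀ hl1 ?_
    push_cast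
    omega
  obtain ⟨z, hz, hz1, hz2, -⟩ := hensels_lemma hlt
  rw [Polynomial.coe_aeval_eq_eval] at hz hz1 hz2
  rw [Polynomial.coe_aeval_eq_eval] at hz2
  refine ⟨z, by rw [hF] at hz; exact sub_eq_zero.1 hz, ?_⟩
  have h1 : ‖(x : ℤ_[l]) - z‖ < ‖F.derivative.eval z‖ := by
    rw [hz2, norm_sub_rev]
    exact hz1
  have h2 := hens_dist l F x z hz h1
  rw [hz2, hnF'] at h2
  have h3 : ‖z - (x : ℤ_[l])‖ ≤ (l : ℝ) ^ (-b : ℤ) := by
    rw [norm_sub_rev]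
    have h4 : ‖(x : ℤ_[l]) - z‖ * (l : ℝ) ^ (-v : ℤ) ≤ (l : ℝ) ^ (-b : ℤ) * (l : ℝ) ^ (-v : ℤ) := by
      rw [← h2, ← zpow_add₀ hl0.ne']
      refine hnF.trans (zpow_le_zpow_right₀ hl1.le ?_)
      push_cast
      omega
    exact le_of_mul_le_mul_right h4 (zpow_pos hl0 _)
  exact Ideal.mem_span_singleton.1 ((PadicInt.norm_le_pow_iff_mem_span_pow _ _).1 h3)

end Pool.Agent.FRD
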