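import Pool.Agent.FRD.DefsB

/-!
# FRD-Ind (1.2h): evaluations at all `l ^ b`-th roots of unity determine an element
-/

open Finset Polynomial

namespace Pool.Agent.FRD

theorem ind {K : Type} [Field K] [IsAlgClosed K] (l : ℕ) [Fact l.Prime] (hl : (l : K) ≠ 0) (b : ℕ)
    (Y : AddMonoidAlgebra K ℤ_[l])
    (hX : Set.InjOn (PadicInt.toZModPow b : ℤ_[l] → ZMod (l ^ b)) (Y.coeff.support : Set ℤ_[l]))
    (h : ∀ (ξ : K) (hξ : ξ ^ (l ^ b) = 1), ev l b ξ hξ Y = 0) : Y = 0 := by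
  classical
  have hl0 : 0 < l ^ b := pow_pos (Fact.out : l.Prime).pos _
  have : NeZero (l ^ b) := ⟨hl0.ne'⟩
  have : NeZero ((l ^ b : ℕ) : K) := ⟨by
    rw [Nat.cast_pow]
    exact pow_ne_zero _ hl⟩
  set P : K[X] := ∑ e ∈ Y.coeff.support, C (Y.coeff e) * X ^ (PadicInt.toZModPow b e).val with hP
  have hdeg : P.natDegree ≤ l ^ b - 1 := by
    rw [hP]
    refine natDegree_sum_le_of_forall_le _ _ fun e _ => (natDegree_C_mul_X_pow_le _ _).trans ?_
    have h1 := ZMod.val_lt (PadicInt.toZModPow b e)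
    omega
  have hroot : ∀ ξ : K, ξ ^ (l ^ b) = 1 → P.eval ξ = 0 := by
    intro ξ hξ
    rw [← h ξ hξ, ev, AddMonoidAlgebra.lift_apply, Finsupp.sum, hP, eval_finsetSum]
    refine Finset.sum_congr rfl fun e _ => ?_
    rw [eval_mul, eval_C, eval_pow, eval_X, smul_eq_mul]
    rfl
  obtain ⟨ζ, hζ⟩ := HasEnoughRootsOfUnity.exists_primitiveRoot K (l ^ b)
  have hP0 : P = 0 := by
    refine eq_zero_of_natDegree_lt_card_of_eval_eq_zero' P (nthRootsFinset (l ^ b) (1 : K)) ?_ ?_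
    · intro ξ hξ
      exact hroot ξ ((mem_nthRootsFinset hl0 _).1 hξ)
    · rw [hζ.card_nthRootsFinset]
      omega
  have hcoeff : ∀ e0 ∈ Y.coeff.support, Y.coeff e0 = 0 := by
    intro e0 he0
    have h1 : P.coeff (PadicInt.toZModPow b e0).val = Y.coeff e0 := by
      rw [hP, finsetSum_coeff, Finset.sum_eq_single e0]
      · rw [coeff_C_mul, coeff_X_pow, if_pos rfl, mul_one]
      · intro e he hne
        rw [coeff_C_mul, coeff_X_pow, if_neg, mul_zero]
        intro h2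
        exact hne (hX he he0 (ZMod.val_injective _ h2).symm)
      · intro h2
        exact absurd he0 h2
    rw [← h1, hP0, coeff_zero]
  apply AddMonoidAlgebra.ext
  refine Finsupp.ext fun e => ?_
  by_cases he : e ∈ Y.coeff.support
  · rw [hcoeff e he]
    rfl
  · rw [Finsupp.notMem_support_iff.1 he]
    rfl

end Pool.Agent.FRD
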