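import Mathlib

/-!
# FRD-OrdM: the order does not change
-/

namespace Pool.Agent.FRD

theorem ord_m {K : Type} [Field K] {f l b : ℕ} (hl : l.Prime) (hf : f ≠ 0) (hb : l ^ (b + 1) ∣ f)
    (z ξ : K) (hz : orderOf z = f) (hξ : ξ ^ (l ^ b) = 1) : orderOf (z * ξ) = f := by
  have hlb : l ^ b ∣ f := (pow_dvd_pow l (Nat.le_succ b)).trans hb
  have hξ1 : ∀ n, l ^ b ∣ n → ξ ^ n = 1 := by
    rintro n ⟨c, rfl⟩
    rw [pow_mul, hξ, one_pow]
  refine orderOf_eq_of_pow_and_pow_div_prime (Nat.pos_of_ne_zero hf) ?_ ?_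
  · rw [mul_pow, hξ1 f hlb, mul_one, ← hz]
    exact pow_orderOf_eq_one z
  · intro r hr hrf
    have h1 : l ^ b ∣ f / r := by
      obtain ⟨c, hc⟩ := hrf
      have h2 : f / r = c := by
        rw [hc]
        exact Nat.mul_div_cancel_left c hr.pos
      rw [h2]
      by_cases hrl : r = l
      · subst hrl
        rw [hc, pow_succ, mul_comm (r ^ b) r] at hb
        exact Nat.dvd_of_mul_dvd_mul_left hr.pos hb
      · rw [hc] at hlb
        exact Nat.Coprime.dvd_of_dvd_mul_left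
          (Nat.Coprime.pow_left b ((Nat.coprime_primes hl hr).2 (Ne.symm hrl))) hlb
    rw [mul_pow, hξ1 _ h1, mul_one]
    intro h2
    have h3 : f ∣ f / r := by
      rw [← hz] at h2 ⊢
      exact orderOf_dvd_of_pow_eq_one h2
    have h4 : 0 < f / r := Nat.div_pos (Nat.le_of_dvd (Nat.pos_of_ne_zero hf) hrf) hr.pos
    have h5 := Nat.le_of_dvd h4 h3
    have h6 := Nat.div_lt_self (Nat.pos_of_ne_zero hf) hr.one_lt
    omega

end Pool.Agent.FRD
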