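import Pool.Agent.FRD.Defs

/-!
# FRD-Sep: finitely many `l`-adic integers are distinct modulo a power of `l`
-/

namespace Pool.Agent.FRD

private theorem sep_pair (l : ℕ) [Fact l.Prime] (x y : ℤ_[l]) :
    ∃ b : ℕ, ∀ c : ℕ, b ≤ c → (PadicInt.toZModPow c : ℤ_[l] → ZMod (l ^ c)) x = PadicInt.toZModPow c y →
      x = y := by
  by_cases h : x = y
  · exact ⟨0, fun _ _ _ => h⟩
  · have h1 : ¬ ∀ n, PadicInt.toZModPow n x = PadicInt.toZModPow n y := fun h1 =>
      h (PadicInt.ext_of_toZModPow.1 h1)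
    push Not at h1
    obtain ⟨b, hb⟩ := h1
    refine ⟨b, fun c hc he => absurd ?_ hb⟩
    have h2 := congrArg (fun z : ZMod (l ^ c) => (z.cast : ZMod (l ^ b))) he
    rw [PadicInt.cast_toZModPow b c hc, PadicInt.cast_toZModPow b c hc] at h2
    exact h2

theorem sep (l : ℕ) [Fact l.Prime] (X : Finset ℤ_[l]) :
    ∃ b : ℕ, ∀ c : ℕ, b ≤ c → Set.InjOn (PadicInt.toZModPow c : ℤ_[l] → ZMod (l ^ c)) X := by
  classical
  choose B hB using fun p : ℤ_[l] × ℤ_[l] => sep_pair l p.1 p.2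
  refine ⟨(X ×ˢ X).sup B, fun c hc x hx y hy he => ?_⟩
  refine hB (x, y) c (le_trans ?_ hc) he
  exact Finset.le_sup (f := B) (Finset.mem_product.2 ⟨hx, hy⟩)

end Pool.Agent.FRD
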