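import Pool.Agent.FRD.DefsB

/-!
# FRD-Spt: the support of the cleared relation
-/

open Finset Polynomial Pointwise

namespace Pool.Agent.FRD

section
open Classical

variable {K : Type} [Field K] {l : ℕ} [Fact l.Prime] {Θ : Finset ℤ_[l]} {k k' : ℕ}
  {Y Y' : AddMonoidAlgebra K ℤ_[l]}

/-- the support is contained in the `k`-fold sum -/
private def SpIn (Θ : Finset ℤ_[l]) (k : ℕ) (Y : AddMonoidAlgebra K ℤ_[l]) : Prop :=
  Y.coeff.support ⊆ k • Θ

private theorem sp_mono (h0 : (0 : ℤ_[l]) ∈ Θ) (h : k ≤ k') (hY : SpIn Θ k Y) : SpIn Θ k' Y :=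
  Finset.Subset.trans hY (Finset.nsmul_subset_nsmul_right h0 h)

private theorem sp_zero : SpIn Θ k (0 : AddMonoidAlgebra K ℤ_[l]) := by
  unfold SpIn
  rw [AddMonoidAlgebra.coeff_zero, Finsupp.support_zero]
  exact empty_subset _

private theorem sp_add (hY : SpIn Θ k Y) (hY' : SpIn Θ k Y') : SpIn Θ k (Y + Y') := by
  unfold SpIn
  rw [AddMonoidAlgebra.coeff_add]
  exact Finset.Subset.trans Finsupp.support_add (union_subset hY hY')

private theorem sp_smul (c : K) (hY : SpIn Θ k Y) : SpIn Θ k (c • Y) := by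
  unfold SpIn
  rw [AddMonoidAlgebra.coeff_smul]
  exact Finset.Subset.trans Finsupp.support_smul hY

private theorem sp_sub (hY : SpIn Θ k Y) (hY' : SpIn Θ k Y') : SpIn Θ k (Y - Y') := by
  have h : Y - Y' = Y + (-1 : K) • Y' := by
    rw [neg_smul, one_smul, sub_eq_add_neg]
  rw [h]
  exact sp_add hY (sp_smul _ hY')

private theorem sp_sum {ι : Type} (s : Finset ι) (f : ι → AddMonoidAlgebra K ℤ_[l])
    (h : ∀ i ∈ s, SpIn Θ k (f i)) : SpIn Θ k (∑ i ∈ s, f i) := by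
  induction s using Finset.induction_on with
  | empty =>
    rw [sum_empty]
    exact sp_zero
  | insert a s ha ih =>
    rw [sum_insert ha]
    exact sp_add (h a (mem_insert_self a s)) (ih fun i hi => h i (mem_insert_of_mem hi))

private theorem sp_mul (hY : SpIn Θ k Y) (hY' : SpIn Θ k' Y') : SpIn Θ (k + k') (Y * Y') := by
  unfold SpIn
  rw [add_nsmul]
  exact Finset.Subset.trans (AddMonoidAlgebra.support_coeff_mul_subset Y Y')
    (Finset.add_subset_add hY hY')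

private theorem sp_one (h0 : (0 : ℤ_[l]) ∈ Θ) : SpIn Θ k (1 : AddMonoidAlgebra K ℤ_[l]) := by
  refine sp_mono h0 (Nat.zero_le k) ?_
  unfold SpIn
  rw [zero_nsmul]
  exact AddMonoidAlgebra.support_coeff_one_subset

private theorem sp_pow (h0 : (0 : ℤ_[l]) ∈ Θ) (hY : SpIn Θ k Y) (m : ℕ) :
    SpIn Θ (m * k) (Y ^ m) := by
  induction m with
  | zero =>
    rw [pow_zero]
    exact sp_one h0
  | succ m ih =>
    rw [pow_succ, Nat.succ_mul]
    exact sp_mul ih hY

private theorem sp_prod (h0 : (0 : ℤ_[l]) ∈ Θ) {ι : Type} (s : Finset ι)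
    (f : ι → AddMonoidAlgebra K ℤ_[l]) (h : ∀ i ∈ s, SpIn Θ k (f i)) :
    SpIn Θ (s.card * k) (∏ i ∈ s, f i) := by
  induction s using Finset.induction_on with
  | empty =>
    rw [prod_empty]
    exact sp_one h0
  | insert a s ha ih =>
    rw [prod_insert ha, card_insert_of_notMem ha, Nat.succ_mul, Nat.add_comm]
    exact sp_mul (h a (mem_insert_self a s)) (ih fun i hi => h i (mem_insert_of_mem hi))

private theorem sp_mon (z : K) {e : ℤ_[l]} (he : e ∈ Θ) : SpIn Θ 1 (mon z e) := by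
  unfold SpIn mon
  rw [AddMonoidAlgebra.coeff_single, one_nsmul]
  refine Finset.Subset.trans Finsupp.support_single_subset ?_
  rw [singleton_subset_iff]
  exact he

private theorem sp_aeval (h0 : (0 : ℤ_[l]) ∈ Θ) (z : K) {e : ℤ_[l]} (he : e ∈ Θ) {n : ℕ}
    (A : K[X]) (hA : A.natDegree ≤ n) : SpIn Θ n (aeval (mon z e) A) := by
  rw [Polynomial.aeval_eq_sum_range]
  refine sp_sum _ _ fun i hi => sp_smul _ ?_
  rw [mem_range] at hi
  exact sp_mono h0 (by omega) (sp_pow h0 (sp_mon z he) i)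

private theorem sp_fac (h0 : (0 : ℤ_[l]) ∈ Θ) (z : K) {e : ℤ_[l]} (he : e ∈ Θ) (n : ℕ) :
    SpIn Θ n ((1 - mon z e) ^ n) := by
  have h := sp_pow h0 (sp_sub (sp_one h0) (sp_mon z he)) n
  rw [mul_one] at h
  exact h

end

open Classical in
theorem spt {K : Type} [Field K] (l : ℕ) [Fact l.Prime] {ι : Type} (s : Finset ι) (n : ℕ)
    (A : K[X]) (hA : A.natDegree ≤ n) (z : K) (c ρ : ι → K) (η : ι → ℤ_[l]) (Θ : Finset ℤ_[l])
    (h0 : (0 : ℤ_[l]) ∈ Θ) (h1 : (1 : ℤ_[l]) ∈ Θ) (hm : (-1 : ℤ_[l]) ∈ Θ)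
    (hη : ∀ i ∈ s, η i ∈ Θ) (k₀ : ℕ) (hk : n * (s.card + 3) ≤ k₀) :
    (YY s n A z c ρ η).coeff.support ⊆ k₀ • Θ := by
  have hmain : SpIn Θ (n * (s.card + 3)) (YY s n A z c ρ η) := by
    unfold YY
    refine sp_add ?_ ?_
    · have h2 : SpIn Θ (n + n) (aeval (mon z 1 : AddMonoidAlgebra K ℤ_[l]) A +
          (mon z 1 : AddMonoidAlgebra K ℤ_[l]) ^ n *
            aeval (mon z⁻¹ (-1) : AddMonoidAlgebra K ℤ_[l]) A) := by
        refine sp_add (sp_mono h0 (by omega) (sp_aeval h0 z h1 A hA)) (sp_mul ?_ ?_)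
        · have h3 := sp_pow h0 (sp_mon z h1) n
          rw [mul_one] at h3
          exact h3
        · exact sp_aeval h0 _ hm A hA
      have h3 : SpIn Θ (s.card * n) (∏ i ∈ s, (1 - mon (ρ i) (η i)) ^ n) :=
        sp_prod h0 s _ fun i hi => sp_fac h0 _ (hη i hi) n
      refine sp_mono h0 ?_ (sp_mul h2 h3)
      nlinarith
    · rcases s.eq_empty_or_nonempty with hs | hs
      · rw [hs, sum_empty, mul_zero]
        exact sp_zero
      have h2 : SpIn Θ (n + (s.card - 1) * n) (∑ i ∈ s,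
          (c i • aeval (mon (ρ i) (η i) : AddMonoidAlgebra K ℤ_[l]) A) *
          ∏ j ∈ s.erase i, (1 - mon (ρ j) (η j)) ^ n) := by
        refine sp_sum _ _ fun i hi => sp_mul (sp_smul _ (sp_aeval h0 _ (hη i hi) A hA)) ?_
        rw [← card_erase_of_mem hi]
        exact sp_prod h0 _ _ fun j hj => sp_fac h0 _ (hη j (mem_of_mem_erase hj)) n
      refine sp_mono h0 ?_ (sp_mul (sp_fac h0 z h1 n) h2)
      have h3 := hs.card_pos
      obtain ⟨m, hm⟩ : ∃ m, s.card = m + 1 := ⟨s.card - 1, by omega⟩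
      rw [hm, Nat.add_sub_cancel]
      nlinarith
  exact sp_mono h0 hk hmain

end Pool.Agent.FRD
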