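import Mathlib

/-!
# Project FRD (MP_b583a4_nt.FiniteReductions): definitions.  DO NOT CHANGE.

Paper proof: `/team-store/frd_proof.md`.  `K` is a field of characteristic `p`, `f` a number all of whose
prime factors are in the finite set `S` of primes (`p` not in `S`), `χ` a character of `(Z/f)^*` with
values in `K`.
-/

open Finset Polynomial

namespace Pool.Agent.FRD

/-- All prime factors of `f` are in `S`. -/
def InS (S : Finset ℕ) (f : ℕ) : Prop := ∀ l : ℕ, l.Prime → l ∣ f → l ∈ S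

/-- `u = 1` modulo `d` (used for `d ∣ f`). -/
def OneMod {f : ℕ} (d : ℕ) (u : (ZMod f)ˣ) : Prop := (d : ℤ) ∣ ((u : ZMod f).val : ℤ) - 1

/-- `χ` is primitive: for every prime `l ∣ f` it is not trivial on the units `u = 1` modulo `f / l`. -/
def Prim {K : Type} [Field K] {f : ℕ} (χ : (ZMod f)ˣ →* Kˣ) : Prop :=
  ∀ l : ℕ, l.Prime → l ∣ f → ∃ u : (ZMod f)ˣ, OneMod (f / l) u ∧ χ u ≠ 1

/-- `2 ∏ (l - 1)` -/
def ES (S : Finset ℕ) : ℕ := 2 * ∏ l ∈ S, (l - 1)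

/-- `4 ∏ l` -/
def P0 (S : Finset ℕ) : ℕ := 4 * ∏ l ∈ S, l

/-- The auxiliary power `q` of `p`. -/
structure GoodQ (p : ℕ) (S : Finset ℕ) (q : ℕ) : Prop where
  pow : ∃ k : ℕ, q = p ^ k
  one_lt : 1 < q
  four : 4 ∣ q - 1
  dv : ∀ m : ℕ, m ∣ 4 * ∏ l ∈ S, (l * (l - 1)) → ¬ p ∣ m → m ∣ q - 1

open Classical in
/-- The units `x` with `χ(x) ^ (q - 1) = 1`. -/
noncomputable def HH {K : Type} [Field K] {f : ℕ} [NeZero f] (q : ℕ) (χ : (ZMod f)ˣ →* Kˣ) :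
    Finset (ZMod f)ˣ :=
  univ.filter fun x => χ x ^ (q - 1) = 1

/-- Finite Fourier transform. -/
noncomputable def Gs {K : Type} [Field K] {f : ℕ} [NeZero f] (g : ZMod f → K) (z : K) : K :=
  ∑ y : ZMod f, z ^ y.val * g y

theorem mem_HH {K : Type} [Field K] {f : ℕ} [NeZero f] {q : ℕ} {χ : (ZMod f)ˣ →* Kˣ}
    {x : (ZMod f)ˣ} : x ∈ HH q χ ↔ χ x ^ (q - 1) = 1 := by
  classical
  unfold HH
  rw [mem_filter]
  exact ⟨fun h => h.2, fun h => ⟨mem_univ _, h⟩⟩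

theorem oneMod_iff {f d : ℕ} [NeZero f] (h : d ∣ f) (u : (ZMod f)ˣ) :
    OneMod d u ↔ ZMod.castHom h (ZMod d) (u : ZMod f) = 1 := by
  unfold OneMod
  have h1 : ZMod.castHom h (ZMod d) (u : ZMod f) = (((u : ZMod f).val : ℤ) : ZMod d) := by
    rw [ZMod.castHom_apply, ZMod.cast_eq_val, Int.cast_natCast]
  rw [h1, ← ZMod.intCast_zmod_eq_zero_iff_dvd]
  push_cast
  rw [sub_eq_zero]

theorem oneMod_one {f d : ℕ} [NeZero f] (h : d ∣ f) : OneMod d (1 : (ZMod f)ˣ) := by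
  rw [oneMod_iff h, Units.val_one, map_one]

theorem OneMod.mul {f d : ℕ} [NeZero f] (h : d ∣ f) {u v : (ZMod f)ˣ} (hu : OneMod d u)
    (hv : OneMod d v) : OneMod d (u * v) := by
  rw [oneMod_iff h] at hu hv ⊢
  rw [Units.val_mul, map_mul, hu, hv, one_mul]

theorem OneMod.pow {f d : ℕ} [NeZero f] (h : d ∣ f) {u : (ZMod f)ˣ} (hu : OneMod d u) (k : ℕ) :
    OneMod d (u ^ k) := by
  rw [oneMod_iff h] at hu ⊢
  rw [Units.val_pow_eq_pow_val, map_pow, hu, one_pow]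

/-- a unit as an integer: powers -/
theorem val_pow_dvd {f : ℕ} [NeZero f] (u : (ZMod f)ˣ) (k : ℕ) (h : u ^ k = 1) :
    (f : ℤ) ∣ ((u : ZMod f).val : ℤ) ^ k - 1 := by
  rw [← ZMod.intCast_zmod_eq_zero_iff_dvd]
  push_cast
  rw [ZMod.natCast_zmod_val, ← Units.val_pow_eq_pow_val, h, Units.val_one, sub_self]

end Pool.Agent.FRD
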