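import Pool.Agent.FRD.OrdSum

/-!
# FRD-Avg: averaging over the Frobenius
-/

open Finset

namespace Pool.Agent.FRD

open Classical in
theorem avg {K : Type} [Field K] {p : ℕ} [Fact p.Prime] [CharP K p] {q m : ℕ}
    (hq : ∃ k : ℕ, q = p ^ k) (hm : ¬ p ∣ m) (hd : ∀ s : ℕ, s.Prime → s ∣ m → s ∣ q - 1)
    (h4 : 4 ∣ q - 1) {G : Type} [CommGroup G] [Fintype G] (χ : G →* Kˣ)
    (hχ : ∀ x, χ x ^ m = 1) (g : G → K) (hg : ∀ x, g x ^ p = g x)
    (h : ∑ x, (χ x : K) * g x = 0) (y : G) :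
    ∑ x ∈ (univ : Finset G).filter (fun x => χ x ^ (q - 1) = 1), (χ x : K) * g (x * y) = 0 := by
  obtain ⟨k, rfl⟩ := hq
  have hp : p.Prime := Fact.out
  have hgj : ∀ (j : ℕ) (x : G), g x ^ p ^ j = g x := by
    intro j x
    induction j with
    | zero => rw [pow_zero, pow_one]
    | succ j ih => rw [pow_succ, pow_mul, ih, hg]
  have hmK : (m : K) ≠ 0 := by
    rw [Ne, CharP.cast_eq_zero_iff K p]
    exact hm
  have h1 : ∀ i : ℕ, ∑ x, (χ x : K) ^ (p ^ k) ^ i * g x = 0 := by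
    intro i
    have e : (∑ x, (χ x : K) * g x) ^ p ^ (k * i) = 0 := by
      rw [h, zero_pow (pow_pos hp.pos _).ne']
    rw [sum_pow_char_pow] at e
    rw [← e]
    refine sum_congr rfl fun x _ => ?_
    rw [mul_pow, hgj, ← pow_mul p k i]
  have h2 : ∀ i : ℕ, ∑ x, (χ x : K) ^ (p ^ k) ^ i * g (x * y) = 0 := by
    intro i
    have e := h1 i
    rw [← Equiv.sum_comp (Equiv.mulRight y)] at e
    have e2 : ∑ x, (χ (Equiv.mulRight y x) : K) ^ (p ^ k) ^ i * g (Equiv.mulRight y x) =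
        (χ y : K) ^ (p ^ k) ^ i * ∑ x, (χ x : K) ^ (p ^ k) ^ i * g (x * y) := by
      rw [mul_sum]
      refine sum_congr rfl fun x _ => ?_
      rw [Equiv.coe_mulRight, map_mul, Units.val_mul, mul_pow]
      ring
    rw [e2] at e
    exact (mul_eq_zero.1 e).resolve_left (pow_ne_zero _ (Units.ne_zero _))
  have h3 : ∑ x, (∑ i ∈ range m, (χ x : K) ^ (p ^ k) ^ i) * g (x * y) = 0 := by
    have e : ∀ x : G, (∑ i ∈ range m, (χ x : K) ^ (p ^ k) ^ i) * g (x * y) =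
        ∑ i ∈ range m, (χ x : K) ^ (p ^ k) ^ i * g (x * y) := fun x => sum_mul _ _ _
    rw [sum_congr rfl fun x _ => e x, sum_comm]
    exact sum_eq_zero fun i _ => h2 i
  have h4' : ∀ x : G, ∑ i ∈ range m, (χ x : K) ^ (p ^ k) ^ i =
      if χ x ^ (p ^ k - 1) = 1 then (m : K) * (χ x : K) else 0 := by
    intro x
    rw [ord_sum hmK (Nat.one_le_pow _ _ hp.pos) hd h4 (χ x : K)
      (by rw [← Units.val_pow_eq_pow_val, hχ, Units.val_one])]
    have e : ((χ x : K) ^ (p ^ k - 1) = 1) = (χ x ^ (p ^ k - 1) = 1) := by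
      rw [← Units.val_pow_eq_pow_val, Units.val_eq_one]
    simp only [e]
  have h5 : (m : K) * ∑ x ∈ (univ : Finset G).filter (fun x => χ x ^ (p ^ k - 1) = 1),
      (χ x : K) * g (x * y) = 0 := by
    rw [← h3, mul_sum, sum_filter]
    refine sum_congr rfl fun x _ => ?_
    rw [h4' x]
    split_ifs with hx
    · ring
    · rw [zero_mul]
  exact (mul_eq_zero.1 h5).resolve_left hmK

end Pool.Agent.FRD
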