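import Pool.Agent.FRD.Faith
import Pool.Agent.FRD.Cnt
import Pool.Agent.FRD.Hens
import Pool.Agent.FRD.NonU
import Pool.Agent.FRD.Four
import Pool.Agent.FRD.Ind
import Pool.Agent.FRD.Pole
import Pool.Agent.FRD.Evl
import Pool.Agent.FRD.Spt
import Pool.Agent.FRD.OrdM
import Pool.Agent.FRD.Sep

/-!
# The theorem of Washington and Friedman in the form needed here (proof in the style of Sinnott)
-/

open Finset Polynomial Pointwise

namespace Pool.Agent.FRD

/-- the bounds for one prime -/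
private def Bd (T k₀ l a : ℕ) [Fact l.Prime] : Prop :=
  ∃ (b : ℕ) (Θ : Finset ℤ_[l]), b < a ∧ (0 : ℤ_[l]) ∈ Θ ∧ (1 : ℤ_[l]) ∈ Θ ∧ (-1 : ℤ_[l]) ∈ Θ ∧
    (∀ η : ℤ_[l], η ^ T = 1 → η ∈ Θ) ∧
    (∀ X : Finset ℤ_[l], (∀ y ∈ X, y ∈ ((k₀ • (Θ : Set ℤ_[l])) : Set ℤ_[l])) →
      Set.InjOn (PadicInt.toZModPow b : ℤ_[l] → ZMod (l ^ b)) X) ∧
    ∀ x : ℤ, (l : ℤ) ^ a ∣ x ^ T - 1 → ∃ η : ℤ_[l], η ^ T = 1 ∧ (l : ℤ_[l]) ^ b ∣ η - (x : ℤ_[l])

private theorem bd_ex (T k₀ l : ℕ) [Fact l.Prime] (hT : T ≠ 0) : ∃ a, Bd T k₀ l a := by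
  classical
  let Θ : Finset ℤ_[l] := {0, 1, -1} ∪ nthRootsFinset T (1 : ℤ_[l])
  obtain ⟨b, hb⟩ := sep l (k₀ • Θ)
  obtain ⟨A, hA⟩ := hens l hT b
  refine ⟨max A (b + 1), b, Θ, lt_of_lt_of_le (Nat.lt_succ_self b) (le_max_right _ _), ?_, ?_, ?_,
    ?_, ?_, ?_⟩
  · exact mem_union_left _ (by simp)
  · exact mem_union_left _ (by simp)
  · exact mem_union_left _ (by simp)
  · intro η hη
    exact mem_union_right _ ((mem_nthRootsFinset (Nat.pos_of_ne_zero hT) _).2 hη)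
  · intro X hX
    refine (hb b le_rfl).mono ?_
    intro y hy
    have h1 := hX y hy
    rwa [← Finset.coe_nsmul] at h1
  · intro x hx
    exact hA _ (le_max_left _ _) x hx

private theorem exists_dvd {S : Finset ℕ} (hS : ∀ l ∈ S, l.Prime) {f : ℕ} (hf0 : f ≠ 0)
    (hf : InS S f) (A : ℕ → ℕ) (hB : ∏ l ∈ S, l ^ A l < f) : ∃ l ∈ S, l ^ A l ∣ f := by
  classical
  by_contra hcon
  push Not at hcon
  have h0 : ∏ l ∈ S, l ^ A l ≠ 0 :=
    Finset.prod_ne_zero_iff.2 fun l hl => pow_ne_zero _ (hS l hl).ne_zero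
  have h1 : f ∣ ∏ l ∈ S, l ^ A l := by
    rw [← Nat.factorization_prime_le_iff_dvd hf0 h0]
    intro r hr
    by_cases hrf : r ∣ f
    · have hrS := hf r hr hrf
      have h2 : f.factorization r ≤ A r := by
        by_contra h3
        exact hcon r hrS ((hr.pow_dvd_iff_le_factorization hf0).2 (not_le.1 h3).le)
      refine h2.trans ?_
      rw [← hr.pow_dvd_iff_le_factorization h0]
      exact Finset.dvd_prod_of_mem (fun l => l ^ A l) hrS
    · rw [Nat.factorization_eq_zero_of_not_dvd hrf]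
      exact Nat.zero_le _
  exact absurd (Nat.le_of_dvd (Nat.pos_of_ne_zero h0) h1) (not_le.2 hB)

private theorem two_terms {K : Type} [Field K] (n : ℕ) (w a b : K) (hw : w ≠ 0)
    (h1 : 1 - w ≠ 0) : (a + w ^ n * b) / (1 - w) ^ n =
      a / (1 - w) ^ n + (-1) ^ n * (b / (1 - w⁻¹) ^ n) := by
  have h3 : 1 - w⁻¹ = (-1) * ((1 - w) / w) := by
    rw [sub_div, div_self hw, one_div]
    ring
  have h4 : ((-1 : K) ^ n) ≠ 0 := pow_ne_zero _ (neg_ne_zero.2 one_ne_zero)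
  have h5 : (1 - w) ^ n ≠ 0 := pow_ne_zero _ h1
  have h6 : w ^ n ≠ 0 := pow_ne_zero _ hw
  rw [h3, mul_pow, div_pow, add_div]
  congr 1
  rw [← mul_div_assoc, div_mul_eq_div_div_swap, mul_div_assoc, div_div_eq_mul_div]
  field_simp

private theorem core_l {p : ℕ} [Fact p.Prime] (hp : p ≠ 2) {S : Finset ℕ}
    (hS : ∀ l ∈ S, l.Prime) (hpS : p ∉ S) {q : ℕ} (hq : GoodQ p S q) {l : ℕ} [Fact l.Prime]
    (hlS : l ∈ S) {k₀ a : ℕ} (hBd : Bd ((q - 1) * ES S) k₀ l a)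
    (hk₀ : p * (P0 S * ((q - 1) * ES S) + 4) ≤ k₀) {f n : ℕ} [NeZero f] (hf : InS S f)
    (hf2 : 2 < f) (hlf : l ^ a ∣ f) (hn : 1 ≤ n) (hnp : n < p) {K : Type} [Field K]
    [IsAlgClosed K] [CharP K p] (χ : (ZMod f)ˣ →* Kˣ) (g : ZMod f → K) (A : K[X]) (c : K)
    (hχ : Prim χ) (hpar : ((χ (-1) : Kˣ) : K) = (-1) ^ n) (hg : ∀ y, g y ^ p = g y)
    (hAd : A.natDegree ≤ n) (hA1 : A.eval 1 ≠ 0) (hc : c ≠ 0)
    (hG : ∀ w : K, w ^ f = 1 → w ≠ 1 → Gs g w * (1 - w) ^ n = c * A.eval w)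
    (hsum : ∑ r : (ZMod f)ˣ, ((χ r : Kˣ) : K) * g r = 0) : False := by
  classical
  have hpp : p.Prime := Fact.out
  have hl : l.Prime := Fact.out
  have hf0 : f ≠ 0 := NeZero.ne f
  obtain ⟨b, Θ, hba, h0Θ, h1Θ, hmΘ, hΘ, hinj, hhens⟩ := hBd
  set T := (q - 1) * ES S with hT
  have hq1 : q - 1 ≠ 0 := by
    have := hq.one_lt
    omega
  have hES : ES S ≠ 0 := by
    unfold ES
    refine mul_ne_zero two_ne_zero (Finset.prod_ne_zero_iff.2 fun l hl => ?_)
    have := (hS l hl).two_le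
    omega
  have hT0 : T ≠ 0 := mul_ne_zero hq1 hES
  have hlp : l ≠ p := fun h => hpS (h ▸ hlS)
  have hlK : (l : K) ≠ 0 := by
    rw [Ne, CharP.cast_eq_zero_iff K p]
    intro h
    exact hlp ((Nat.prime_dvd_prime_iff_eq hpp hl).1 h).symm
  have hfK : (f : K) ≠ 0 := by
    rw [Ne, CharP.cast_eq_zero_iff K p]
    intro h
    exact hpS (hf p hpp h)
  have h2K : (2 : K) ≠ 0 := by
    have h1 : ((2 : ℕ) : K) ≠ 0 := by
      rw [Ne, CharP.cast_eq_zero_iff K p]
      intro h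
      exact hp ((Nat.prime_dvd_prime_iff_eq hpp Nat.prime_two).1 h)
    exact_mod_cast h1
  -- the relation
  have hrel := non_unit hS hq hf χ hχ g hg hsum
  have hrel2 := fun z hz => four χ g hrel z hz
  -- the group
  have hxT : ∀ x ∈ HH q χ, x ^ T = 1 := fun x hx => faith hS hf χ hχ (q - 1) x (mem_HH.1 hx)
  have h1H : (1 : (ZMod f)ˣ) ∈ HH q χ := by
    rw [mem_HH, map_one, one_pow]
  have hmH : (-1 : (ZMod f)ˣ) ∈ HH q χ := by
    rw [mem_HH]
    have h1 : (χ (-1) : Kˣ) ^ 2 = 1 := by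
      rw [← map_pow, neg_one_sq, map_one]
    obtain ⟨e, he⟩ := hq.four
    rw [he, show 4 * e = 2 * (2 * e) by ring, pow_mul, h1, one_pow]
  have hne : (-1 : (ZMod f)ˣ) ≠ 1 := by
    intro h
    have h1 : ((-1 : (ZMod f)ˣ) : ZMod f) = ((1 : (ZMod f)ˣ) : ZMod f) := by rw [h]
    rw [Units.val_neg, Units.val_one, eq_comm, ← sub_eq_zero, sub_neg_eq_add, one_add_one_eq_two]
      at h1
    have h2 : ((2 : ℕ) : ZMod f) = 0 := by exact_mod_cast h1
    rw [ZMod.natCast_eq_zero_iff] at h2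
    exact absurd (Nat.le_of_dvd (by norm_num) h2) (not_le.2 hf2)
  have hcard : (HH q χ).card ≤ P0 S * T := by
    refine le_trans (card_le_card ?_) (cnt hS hf hT0)
    intro x hx
    exact mem_filter.2 ⟨mem_univ _, hxT x hx⟩
  -- the `l`-adic exponents
  have hex : ∀ x : (ZMod f)ˣ, ∃ e : ℤ_[l], x ∈ HH q χ → e ^ T = 1 ∧
      (l : ℤ_[l]) ^ b ∣ e - (((x : ZMod f).val : ℤ) : ℤ_[l]) := by
    intro x
    by_cases hx : x ∈ HH q χ
    · have h1 : (l : ℤ) ^ a ∣ ((x : ZMod f).val : ℤ) ^ T - 1 := by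
        refine dvd_trans ?_ (val_pow_dvd x T (hxT x hx))
        exact_mod_cast hlf
      obtain ⟨e, he, he2⟩ := hhens _ h1
      exact ⟨e, fun _ => ⟨he, he2⟩⟩
    · exact ⟨0, fun h => absurd h hx⟩
  choose η hη using hex
  have hηval : ∀ x ∈ HH q χ, PadicInt.toZModPow b (η x) = ((x : ZMod f).val : ZMod (l ^ b)) := by
    intro x hx
    have h1 : PadicInt.toZModPow b (η x - (((x : ZMod f).val : ℤ) : ℤ_[l])) = 0 := by
      rw [← RingHom.mem_ker, PadicInt.ker_toZModPow]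
      exact Ideal.mem_span_singleton.2 (hη x hx).2
    rw [map_sub, sub_eq_zero, map_intCast] at h1
    rw [h1]
    push_cast
    rfl
  have hb0 : NeZero (l ^ b) := ⟨pow_ne_zero _ hl.ne_zero⟩
  have hξval : ∀ x ∈ HH q χ, ∀ ξ : K, ξ ^ (l ^ b) = 1 →
      ξ ^ (PadicInt.toZModPow b (η x)).val = ξ ^ (x : ZMod f).val := by
    intro x hx ξ hξ
    rw [hηval x hx, ZMod.val_natCast]
    conv_rhs => rw [← Nat.mod_add_div (x : ZMod f).val (l ^ b), pow_add, pow_mul, hξ, one_pow,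
      mul_one]
  -- a root of unity of order `f`
  have : NeZero (f : K) := ⟨hfK⟩
  obtain ⟨z, hz⟩ := HasEnoughRootsOfUnity.exists_primitiveRoot K f
  have hzf : orderOf z = f := hz.eq_orderOf.symm
  have hz0 : z ≠ 0 := by
    intro h
    have := hz.pow_eq_one
    rw [h, zero_pow hf0] at this
    exact zero_ne_one this
  set s : Finset (ZMod f)ˣ := ((HH q χ).erase 1).erase (-1) with hs
  have hsH : ∀ x ∈ s, x ∈ HH q χ ∧ x ≠ 1 ∧ x ≠ -1 := by
    intro x hx
    rw [hs, mem_erase, mem_erase] at hx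
    exact ⟨hx.2.2, hx.2.1, hx.1⟩
  let ρ : (ZMod f)ˣ → K := fun x => z ^ (x : ZMod f).val
  let cc : (ZMod f)ˣ → K := fun x => (((χ x)⁻¹ : Kˣ) : K)
  have hinj1 : ∀ x y : (ZMod f)ˣ, z ^ (x : ZMod f).val = z ^ (y : ZMod f).val → x = y := by
    intro x y h
    have h1 := hz.pow_inj (ZMod.val_lt _) (ZMod.val_lt _) h
    exact Units.ext (ZMod.val_injective f h1)
  -- the main contradiction
  refine pole h2K l s hn hT0 A hA1 z hz0 cc ρ η ?_ ?_ ?_ ?_ ?_
  · intro x hx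
    exact (hη x (hsH x hx).1).1
  · intro x _
    exact pow_ne_zero _ hz0
  · intro x hx _ h
    apply (hsH x hx).2.1
    apply hinj1
    have h1 : ((1 : (ZMod f)ˣ) : ZMod f).val = 1 := by
      rw [Units.val_one, ZMod.val_one'' (by omega)]
    rw [h1, pow_one]
    exact h
  · intro x hx _ h
    apply (hsH x hx).2.2
    have h1 : z ^ ((x : ZMod f).val + 1) = 1 := by
      rw [pow_succ]
      change ρ x * z = 1
      rw [h, inv_mul_cancel₀ hz0]
    have h2 := (hz.pow_eq_one_iff_dvd _).1 h1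
    have h3 : (((x : ZMod f).val + 1 : ℕ) : ZMod f) = 0 := (ZMod.natCast_eq_zero_iff _ _).2 h2
    push_cast at h3
    rw [ZMod.natCast_zmod_val] at h3
    apply Units.ext
    rw [Units.val_neg, Units.val_one]
    exact eq_neg_of_add_eq_zero_left h3
  · refine ind l hlK b _ ?_ ?_
    · refine hinj _ ?_
      have h1 := spt l s n A hAd z cc ρ η Θ h0Θ h1Θ hmΘ
        (fun x hx => hΘ _ (hη x (hsH x hx).1).1) k₀ ?_
      · intro y hy
        have h2 := h1 hy
        rw [← Finset.coe_nsmul]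
        exact h2
      · refine le_trans ?_ hk₀
        refine Nat.mul_le_mul hnp.le ?_
        have h2 : s.card ≤ (HH q χ).card :=
          card_le_card fun x hx => (hsH x hx).1
        omega
    · intro ξ hξ
      have hord : orderOf (z * ξ) = f :=
        ord_m hl hf0 ((pow_dvd_pow l (Nat.succ_le_of_lt hba)).trans hlf) z ξ hzf hξ
      have hzξ : IsPrimitiveRoot (z * ξ) f := by
        rw [← hord]
        exact IsPrimitiveRoot.orderOf _
      have hw : ∀ x : (ZMod f)ˣ, (z * ξ) ^ (x : ZMod f).val ≠ 1 := by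
        intro x h
        have h1 := (hzξ.pow_eq_one_iff_dvd _).1 h
        have h2 : (x : ZMod f) = 0 := by
          rw [← ZMod.natCast_zmod_val (x : ZMod f), ZMod.natCast_eq_zero_iff]
          exact h1
        have h3 : Nontrivial (ZMod f) := ZMod.nontrivial_iff.2 (by omega)
        exact x.ne_zero h2
      have hρ : ∀ x ∈ HH q χ, ρ x * ξ ^ (PadicInt.toZModPow b (η x)).val =
          (z * ξ) ^ (x : ZMod f).val := by
        intro x hx
        rw [hξval x hx ξ hξ, mul_pow]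
      have hone : (z * ξ) ^ ((1 : (ZMod f)ˣ) : ZMod f).val = z * ξ := by
        rw [Units.val_one, ZMod.val_one'' (by omega), pow_one]
      have hmone : (z * ξ) ^ ((-1 : (ZMod f)ˣ) : ZMod f).val = (z * ξ)⁻¹ := by
        apply eq_inv_of_mul_eq_one_left
        rw [← pow_succ, hzξ.pow_eq_one_iff_dvd, ← ZMod.natCast_eq_zero_iff]
        push_cast
        rw [ZMod.natCast_zmod_val, neg_add_cancel]
      have hw1 : z * ξ ≠ 1 := by
        have := hw 1
        rwa [hone] at this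
      -- the relation, term by term
      have hterm : ∀ x ∈ HH q χ, (((χ x)⁻¹ : Kˣ) : K) * Gs g ((z * ξ) ^ (x : ZMod f).val) =
          c * (cc x * (A.eval ((z * ξ) ^ (x : ZMod f).val) /
            (1 - (z * ξ) ^ (x : ZMod f).val) ^ n)) := by
        intro x _
        have h1 := hG ((z * ξ) ^ (x : ZMod f).val)
          (by rw [← pow_mul, mul_comm (x : ZMod f).val f, pow_mul, hzξ.pow_eq_one, one_pow]) (hw x)
        have h2 : (1 - (z * ξ) ^ (x : ZMod f).val) ^ n ≠ 0 :=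
          pow_ne_zero _ (sub_ne_zero.2 (hw x).symm)
        rw [← eq_div_iff h2] at h1
        rw [h1]
        change cc x * _ = _
        ring
      have hr := hrel2 (z * ξ) hzξ.pow_eq_one
      rw [Finset.sum_congr rfl hterm, ← Finset.mul_sum] at hr
      have hr2 := (mul_eq_zero.1 hr).resolve_left hc
      have hmem : (-1 : (ZMod f)ˣ) ∈ (HH q χ).erase 1 := mem_erase.2 ⟨hne, hmH⟩
      rw [← Finset.add_sum_erase _ _ h1H, ← Finset.add_sum_erase _ _ hmem, ← add_assoc] at hr2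
      refine evl l b s n A z hz0 cc ρ η ξ hξ hw1 ?_ ?_
      · intro x hx
        rw [hρ x (hsH x hx).1]
        exact hw x
      · rw [← hr2]
        have hzξ0 : z * ξ ≠ 0 := by
          intro h
          have := hzξ.pow_eq_one
          rw [h, zero_pow hf0] at this
          exact zero_ne_one this
        have h1w : (1 - z * ξ) ≠ 0 := sub_ne_zero.2 hw1.symm
        congr 1
        · rw [hone, hmone]
          have hcc1 : cc 1 = 1 := by
            change (((χ 1)⁻¹ : Kˣ) : K) = 1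
            rw [map_one, inv_one, Units.val_one]
          have hccm : cc (-1) = (-1) ^ n := by
            change (((χ (-1))⁻¹ : Kˣ) : K) = (-1) ^ n
            rw [Units.val_inv_eq_inv_val, hpar, ← inv_pow]
            congr 1
            rw [inv_neg, inv_one]
          rw [hcc1, hccm]
          rw [one_mul]
          exact two_terms n (z * ξ) _ _ hzξ0 h1w
        · refine Finset.sum_congr rfl fun x hx => ?_
          rw [hρ x (hsH x hx).1]

theorem core (p : ℕ) [Fact p.Prime] (hp : p ≠ 2) (S : Finset ℕ) (hS : ∀ l ∈ S, l.Prime)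
    (hpS : p ∉ S) : ∃ B : ℕ, ∀ (f n : ℕ) [NeZero f], B < f → InS S f → 1 ≤ n → n < p →
      ∀ (K : Type) [Field K] [IsAlgClosed K] [CharP K p] (χ : (ZMod f)ˣ →* Kˣ) (g : ZMod f → K)
        (A : K[X]) (c : K), Prim χ → ((χ (-1) : Kˣ) : K) = (-1) ^ n → (∀ y, g y ^ p = g y) →
        A.natDegree ≤ n → A.eval 1 ≠ 0 → c ≠ 0 →
        (∀ w : K, w ^ f = 1 → w ≠ 1 → Gs g w * (1 - w) ^ n = c * A.eval w) →
        ∑ r : (ZMod f)ˣ, ((χ r : Kˣ) : K) * g r ≠ 0 := by
  obtain ⟨q, hq⟩ := q_ex (Fact.out : p.Prime) hp hS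
  have hq1 : q - 1 ≠ 0 := by
    have := hq.one_lt
    omega
  have hES : ES S ≠ 0 := by
    unfold ES
    refine mul_ne_zero two_ne_zero (Finset.prod_ne_zero_iff.2 fun l hl => ?_)
    have := (hS l hl).two_le
    omega
  have hT0 : (q - 1) * ES S ≠ 0 := mul_ne_zero hq1 hES
  have hA : ∀ l : ℕ, ∃ a : ℕ, ∀ h : l.Prime, have := Fact.mk h
      Bd ((q - 1) * ES S) (p * (P0 S * ((q - 1) * ES S) + 4)) l a := by
    intro l
    by_cases h : l.Prime
    · have := Fact.mk h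
      obtain ⟨a, ha⟩ := bd_ex ((q - 1) * ES S) (p * (P0 S * ((q - 1) * ES S) + 4)) l hT0
      exact ⟨a, fun _ => ha⟩
    · exact ⟨0, fun h' => absurd h' h⟩
  choose Al hAl using hA
  refine ⟨max 2 (∏ l ∈ S, l ^ Al l), ?_⟩
  intro f n _ hBf hf hn hnp K _ _ _ χ g A c hχ hpar hg hAd hA1 hc hG hsum
  obtain ⟨l, hlS, hlf⟩ := exists_dvd hS (NeZero.ne f) hf Al
    (lt_of_le_of_lt (le_max_right _ _) hBf)
  have := Fact.mk (hS l hlS)
  exact core_l hp hS hpS hq hlS (hAl l (hS l hlS)) le_rfl hf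
    (lt_of_le_of_lt (le_max_left _ _) hBf) hlf hn hnp χ g A c hχ hpar hg hAd hA1 hc hG hsum

end Pool.Agent.FRD
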