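import Pool.Agent.FRD.Defs

/-!
# Project FRD: the group algebra of `Z_l`.  DO NOT CHANGE.

`ev l b ξ hξ`: the ring homomorphism `K[Z_l] → K`, `[e] ↦ ξ ^ (e mod l ^ b)` for `ξ ^ (l ^ b) = 1`.
`mon z e = z [e]`.  `YY`: the cleared relation (paper, section 4).
-/

open Finset Polynomial

namespace Pool.Agent.FRD

/-- `e ↦ ξ ^ (e mod l ^ b)` -/
noncomputable def evHom {K : Type} [Field K] (l : ℕ) [Fact l.Prime] (b : ℕ) (ξ : K)
    (hξ : ξ ^ (l ^ b) = 1) : Multiplicative ℤ_[l] →* K where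
  toFun e := ξ ^ (PadicInt.toZModPow b e.toAdd).val
  map_one' := by
    rw [toAdd_one, map_zero, ZMod.val_zero, pow_zero]
  map_mul' e e' := by
    have h0 : NeZero (l ^ b) := ⟨pow_ne_zero _ (Fact.out : l.Prime).ne_zero⟩
    rw [toAdd_mul, map_add, ← pow_add, ZMod.val_add]
    exact (pow_mod_of hξ _).symm
where
  pow_mod_of {K : Type} [Field K] {ξ : K} {m : ℕ} (h : ξ ^ m = 1) (a : ℕ) :
      ξ ^ a = ξ ^ (a % m) := by
    conv_lhs => rw [← Nat.mod_add_div a m, pow_add, pow_mul, h, one_pow, mul_one]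

/-- the evaluation homomorphism -/
noncomputable def ev {K : Type} [Field K] (l : ℕ) [Fact l.Prime] (b : ℕ) (ξ : K)
    (hξ : ξ ^ (l ^ b) = 1) : AddMonoidAlgebra K ℤ_[l] →ₐ[K] K :=
  AddMonoidAlgebra.lift K K ℤ_[l] (evHom l b ξ hξ)

/-- the element `z [e]` -/
noncomputable def mon {K : Type} [Field K] {l : ℕ} [Fact l.Prime] (z : K) (e : ℤ_[l]) :
    AddMonoidAlgebra K ℤ_[l] :=
  AddMonoidAlgebra.single e z

open Classical in
/-- the cleared relation -/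
noncomputable def YY {K : Type} [Field K] {l : ℕ} [Fact l.Prime] {ι : Type} (s : Finset ι) (n : ℕ)
    (A : K[X]) (z : K) (c ρ : ι → K) (η : ι → ℤ_[l]) : AddMonoidAlgebra K ℤ_[l] :=
  (aeval (mon z 1 : AddMonoidAlgebra K ℤ_[l]) A +
      (mon z 1 : AddMonoidAlgebra K ℤ_[l]) ^ n *
        aeval (mon z⁻¹ (-1) : AddMonoidAlgebra K ℤ_[l]) A) * ∏ i ∈ s, (1 - mon (ρ i) (η i)) ^ n +
    (1 - mon z 1) ^ n * ∑ i ∈ s, (c i • aeval (mon (ρ i) (η i) : AddMonoidAlgebra K ℤ_[l]) A) *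
      ∏ j ∈ s.erase i, (1 - mon (ρ j) (η j)) ^ n

theorem ev_mon {K : Type} [Field K] {l : ℕ} [Fact l.Prime] {b : ℕ} {ξ : K}
    (hξ : ξ ^ (l ^ b) = 1) (z : K) (e : ℤ_[l]) :
    ev l b ξ hξ (mon z e) = z * ξ ^ (PadicInt.toZModPow b e).val := by
  unfold ev mon
  rw [AddMonoidAlgebra.lift_single, smul_eq_mul]
  rfl

end Pool.Agent.FRD
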