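import Pool.Agent.FRD.Defs
import Pool.Agent.AAP.CritMain
import Pool.Agent.AAP.BcTei

/-!
# Project FRD: the ring of integers of `E`.  DO NOT CHANGE.
-/

namespace Pool.Agent.FRD

/-- the ring of all `x` with `‖x‖ ≤ 1` -/
def OE (E : Type) [NormedField E] [IsUltrametricDist E] : Subring E where
  carrier := {x | ‖x‖ ≤ 1}
  zero_mem' := by
    show ‖(0 : E)‖ ≤ 1
    rw [norm_zero]
    exact zero_le_one
  one_mem' := by
    show ‖(1 : E)‖ ≤ 1
    rw [norm_one]
  add_mem' := fun {a b} ha hb =>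
    (IsUltrametricDist.norm_add_le_max a b).trans (max_le ha hb)
  mul_mem' := fun {a b} ha hb => by
    show ‖a * b‖ ≤ 1
    rw [norm_mul]
    exact mul_le_one₀ ha (norm_nonneg _) hb
  neg_mem' := fun {a} ha => by
    show ‖-a‖ ≤ 1
    rw [norm_neg]
    exact ha

theorem mem_OE {E : Type} [NormedField E] [IsUltrametricDist E] {x : E} : x ∈ OE E ↔ ‖x‖ ≤ 1 :=
  Iff.rfl

/-- `π` is a homomorphism from the ring of integers with kernel the maximal ideal -/
def Red {E K : Type} [NormedField E] [IsUltrametricDist E] [Field K] (π : OE E →+* K) : Prop :=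
  ∀ x : OE E, π x = 0 ↔ ‖(x : E)‖ < 1

/-- `χ` is the reduction of `γ` -/
def RedOf {E K : Type} [NormedField E] [IsUltrametricDist E] [Field K] (π : OE E →+* K) {N : ℕ}
    (γ : (ZMod N)ˣ →* Eˣ) (χ : (ZMod N)ˣ →* Kˣ) : Prop :=
  ∀ (r : (ZMod N)ˣ) (h : ((γ r : Eˣ) : E) ∈ OE E), ((χ r : Kˣ) : K) = π ⟨γ r, h⟩

end Pool.Agent.FRD
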