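import Pool.Agent.FRD.Lte

/-!
# FRD-Faith: a primitive character is faithful on the units near 1
-/

open Finset

namespace Pool.Agent.FRD

private theorem faith_pow_aux (z : ℤ) (j : ℕ) : z ^ 2 ∣ (1 + z) ^ j - 1 - j * z := by
  induction j with
  | zero => simp
  | succ j ih =>
    have h1 : (1 + z) ^ (j + 1) - 1 - ((j + 1 : ℕ) : ℤ) * z
        = (1 + z) * ((1 + z) ^ j - 1 - j * z) + z ^ 2 * j := by
      push_cast
      ring
    rw [h1]
    exact dvd_add (Dvd.dvd.mul_left ih _) (Dvd.intro _ rfl)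

private theorem faith_unit_pow {f l n : ℕ} [NeZero f] (h : l ∣ f) (x : (ZMod f)ˣ)
    (hn : ∀ a : (ZMod l)ˣ, a ^ n = 1) : OneMod l (x ^ n) := by
  rw [oneMod_iff h]
  have h1 := hn (Units.map (ZMod.castHom h (ZMod l)).toMonoidHom x)
  have h2 := congrArg (fun a : (ZMod l)ˣ => (a : ZMod l)) h1
  rw [Units.val_pow_eq_pow_val, map_pow]
  rw [Units.val_pow_eq_pow_val, Units.val_one] at h2
  exact h2

private theorem faith_four : ∀ a : (ZMod 4)ˣ, a ^ 2 = 1 := by decide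

private theorem faith_eq_of_dvd {f : ℕ} [NeZero f] (u : (ZMod f)ˣ) (v : ℤ)
    (h : (f : ℤ) ∣ v - ((u : ZMod f).val : ℤ)) : (v : ZMod f) = (u : ZMod f) := by
  rw [← ZMod.intCast_zmod_eq_zero_iff_dvd] at h
  push_cast at h
  rw [ZMod.natCast_zmod_val, sub_eq_zero] at h
  exact h

theorem faith {K : Type} [Field K] {S : Finset ℕ} (hS : ∀ l ∈ S, l.Prime) {f : ℕ} [NeZero f]
    (hf : InS S f) (χ : (ZMod f)ˣ →* Kˣ) (hχ : Prim χ) (k : ℕ) (x : (ZMod f)ˣ)
    (h : χ x ^ k = 1) : x ^ (k * ES S) = 1 := by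
  have hf0 : f ≠ 0 := NeZero.ne f
  have hfz : (f : ℤ) ≠ 0 := by exact_mod_cast hf0
  by_contra hw
  set w : (ZMod f)ˣ := x ^ (k * ES S) with hwdef
  have hχw : χ w = 1 := by
    rw [hwdef, map_pow, pow_mul, h, one_pow]
  -- (a)
  have ha : ∀ l : ℕ, l.Prime → l ∣ f → OneMod l w := by
    intro l hl hlf
    have : Fact l.Prime := ⟨hl⟩
    have hlS := hf l hl hlf
    have hd : (l - 1) ∣ k * ES S := by
      unfold ES
      exact Dvd.dvd.mul_left (Dvd.dvd.mul_left (Finset.dvd_prod_of_mem (fun l => l - 1) hlS) _) _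
    refine faith_unit_pow hlf x (fun a => ?_)
    obtain ⟨c, hc⟩ := hd
    rw [hc, pow_mul, ZMod.units_pow_card_sub_one_eq_one, one_pow]
  have ha4 : 4 ∣ f → OneMod 4 w := by
    intro h4
    refine faith_unit_pow h4 x (fun a => ?_)
    have hd : 2 ∣ k * ES S := by
      unfold ES
      exact Dvd.dvd.mul_left (Dvd.intro _ rfl) _
    obtain ⟨c, hc⟩ := hd
    rw [hc, pow_mul, faith_four, one_pow]
  -- (b)
  have ht0 : 0 < orderOf w := orderOf_pos w
  have ht1 : orderOf w ≠ 1 := fun h1 => hw (orderOf_eq_one_iff.1 h1)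
  obtain ⟨r, hr, hrt⟩ := Nat.exists_prime_and_dvd ht1
  obtain ⟨s, hs⟩ := hrt
  have hs0 : 0 < s := by
    rcases Nat.eq_zero_or_pos s with h0 | h0
    · rw [h0, mul_zero] at hs; omega
    · exact h0
  set w₁ : (ZMod f)ˣ := w ^ s with hw₁
  have hw1 : w₁ ≠ 1 := by
    intro h1
    have h2 := orderOf_dvd_of_pow_eq_one h1
    have h3 := Nat.le_of_dvd hs0 h2
    rw [hs] at h3
    nlinarith [hr.two_le]
  have hwr : w₁ ^ r = 1 := by
    rw [hw₁, ← pow_mul, mul_comm s r, ← hs, pow_orderOf_eq_one]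
  have hχ1 : χ w₁ = 1 := by rw [hw₁, map_pow, hχw, one_pow]
  have hb : ∀ l : ℕ, l.Prime → l ∣ f → OneMod l w₁ := fun l hl hlf => (ha l hl hlf).pow hlf s
  have hb4 : 4 ∣ f → OneMod 4 w₁ := fun h4 => (ha4 h4).pow h4 s
  set u : ℤ := ((w₁ : ZMod f).val : ℤ) with hu
  have huw : (u : ZMod f) = (w₁ : ZMod f) := by
    rw [hu]
    push_cast
    rw [ZMod.natCast_zmod_val]
  have hlte : (f : ℤ) ∣ (r : ℤ) * (u - 1) := by
    refine lte hf0 hr.ne_zero u (fun l hl hlf => hb l hl hlf) ?_ (val_pow_dvd w₁ r hwr)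
    intro h4
    have := hb4 h4
    unfold OneMod at this
    exact_mod_cast this
  -- (c)
  have hnd : ¬ (f : ℤ) ∣ u - 1 := by
    intro h1
    apply hw1
    rw [← ZMod.intCast_zmod_eq_zero_iff_dvd] at h1
    push_cast at h1
    rw [sub_eq_zero, huw] at h1
    exact Units.ext h1
  have hrf : r ∣ f := by
    by_contra h1
    have h2 : Nat.Coprime f r := ((Nat.Prime.coprime_iff_not_dvd hr).2 h1).symm
    have h3 : IsCoprime (f : ℤ) (r : ℤ) := Nat.isCoprime_iff_coprime.2 h2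
    exact hnd (h3.dvd_of_dvd_mul_left hlte)
  obtain ⟨m, hm⟩ := hrf
  have hfr : f / r = m := by rw [hm, Nat.mul_div_cancel_left _ hr.pos]
  have hrz : (r : ℤ) ≠ 0 := by exact_mod_cast hr.ne_zero
  have hfm : (f : ℤ) = r * m := by exact_mod_cast hm
  have hmu : (m : ℤ) ∣ u - 1 := by
    rw [hfm] at hlte
    exact (mul_dvd_mul_iff_left hrz).1 hlte
  -- (d)
  have hru : (r : ℤ) ∣ u - 1 := hb r hr ⟨m, hm⟩
  have hrm : r ∣ m := by
    by_contra h1
    have h2 : Nat.Coprime r m := (Nat.Prime.coprime_iff_not_dvd hr).2 h1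
    have h3 : IsCoprime (r : ℤ) (m : ℤ) := Nat.isCoprime_iff_coprime.2 h2
    apply hnd
    rw [hfm]
    exact h3.mul_dvd hru hmu
  -- (e)
  obtain ⟨v, hv1, hv2⟩ := hχ r hr ⟨m, hm⟩
  rw [hfr] at hv1
  apply hv2
  obtain ⟨c, hc⟩ := hmu
  obtain ⟨d, hd⟩ := hv1
  have hrc : ¬ (r : ℤ) ∣ c := by
    intro h1
    apply hnd
    rw [hc, hfm, mul_comm (r : ℤ)]
    exact mul_dvd_mul_left _ h1
  have : Fact r.Prime := ⟨hr⟩
  obtain ⟨j, hj⟩ : ∃ j : ℕ, (r : ℤ) ∣ j * c - d := by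
    have h1 : (c : ZMod r) ≠ 0 := by
      intro h1
      exact hrc ((ZMod.intCast_zmod_eq_zero_iff_dvd c r).1 h1)
    refine ⟨((d : ZMod r) * (c : ZMod r)⁻¹).val, ?_⟩
    rw [← ZMod.intCast_zmod_eq_zero_iff_dvd]
    push_cast
    rw [ZMod.natCast_zmod_val, mul_assoc, inv_mul_cancel₀ h1, mul_one, sub_self]
  have hkey : (f : ℤ) ∣ u ^ j - ((v : ZMod f).val : ℤ) := by
    have h1 := faith_pow_aux (u - 1) j
    have h2 : (f : ℤ) ∣ (u - 1) ^ 2 := by
      rw [hc, hfm, mul_pow, sq (m : ℤ), mul_comm (r : ℤ), mul_assoc]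
      obtain ⟨m', hm'⟩ := hrm
      refine mul_dvd_mul_left _ ?_
      rw [show ((m : ℕ) : ℤ) = r * m' by exact_mod_cast hm', mul_assoc]
      exact Dvd.intro _ rfl
    have h3 : (f : ℤ) ∣ (m : ℤ) * (j * c - d) := by
      rw [hfm, mul_comm (r : ℤ)]
      exact mul_dvd_mul_left _ hj
    have h4 := dvd_add (h2.trans h1) h3
    have h5 : (1 + (u - 1)) ^ j - 1 - j * (u - 1) + (m : ℤ) * (j * c - d)
        = u ^ j - ((v : ZMod f).val : ℤ) := by
      have h6 : (v : ZMod f).val = (1 : ℤ) + m * d := by linarith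
      rw [h6, hc]
      have h7 : (1 : ℤ) + (m : ℤ) * c = u := by linarith
      rw [h7]
      ring
    rw [h5] at h4
    exact h4
  have hvw : w₁ ^ j = v := by
    have h1 := faith_eq_of_dvd v (u ^ j) hkey
    push_cast at h1
    rw [huw] at h1
    apply Units.ext
    rw [Units.val_pow_eq_pow_val]
    exact h1
  rw [← hvw, map_pow, hχ1, one_pow]

end Pool.Agent.FRD
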