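import Pool.Agent.FRD.DefsB

/-!
# FRD-Kap: a homomorphism `Z_l → K^*` with a given value at `1`
-/

namespace Pool.Agent.FRD

private theorem kap_root {K : Type} [Field K] [IsAlgClosed K] {n : ℕ} (hn : n ≠ 0) (u : Kˣ) :
    ∃ v : Kˣ, v ^ n = u := by
  obtain ⟨z, hz⟩ := IsAlgClosed.exists_pow_nat_eq (u : K) (Nat.pos_of_ne_zero hn)
  have hz0 : z ≠ 0 := by
    rintro rfl
    rw [zero_pow hn] at hz
    exact u.ne_zero hz.symm
  refine ⟨Units.mk0 z hz0, ?_⟩
  ext
  rw [Units.val_pow_eq_pow_val, Units.val_mk0, hz]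

private theorem kap_div {K : Type} [Field K] [IsAlgClosed K] {n : ℤ} (hn : n ≠ 0) :
    Function.Surjective (fun a => n • a : Additive Kˣ → Additive Kˣ) := by
  intro a
  obtain ⟨v, hv⟩ := kap_root (K := K) (n := n.natAbs) (Int.natAbs_ne_zero.2 hn) a.toMul
  rcases Int.natAbs_eq n with h | h
  · refine ⟨Additive.ofMul v, ?_⟩
    show n • Additive.ofMul v = a
    rw [h, natCast_zsmul, ← ofMul_pow, hv, ofMul_toMul]
  · refine ⟨-Additive.ofMul v, ?_⟩
    show n • -Additive.ofMul v = a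
    rw [h, neg_smul, smul_neg, neg_neg, natCast_zsmul, ← ofMul_pow, hv, ofMul_toMul]

theorem kap {K : Type} [Field K] [IsAlgClosed K] (l : ℕ) [Fact l.Prime] (u : Kˣ) :
    ∃ κ : Multiplicative ℤ_[l] →* Kˣ, κ (Multiplicative.ofAdd 1) = u := by
  let _ : DivisibleBy (Additive Kˣ) ℤ := divisibleByOfSMulRightSurj (Additive Kˣ) ℤ kap_div
  obtain ⟨F, hF⟩ := (Module.Baer.of_divisible (Additive Kˣ)).extension_property_addMonoidHom
    (Int.castAddHom ℤ_[l]) (fun a b h => by
      have : ((a : ℤ) : ℤ_[l]) = b := h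
      exact_mod_cast this) ((zmultiplesHom (Additive Kˣ)) (Additive.ofMul u))
  refine ⟨AddMonoidHom.toMultiplicativeLeft F, ?_⟩
  show (F 1).toMul = u
  have h1 : F 1 = Additive.ofMul u := by
    have := DFunLike.congr_fun hF 1
    simpa using this
  rw [h1, toMul_ofMul]

end Pool.Agent.FRD
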