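import Pool.Agent.FRD.Defs

/-!
# FRD-Lte: lifting the exponent for composite moduli
-/

namespace Pool.Agent.FRD

private theorem lte_not_dvd {p : ℕ} (hp : p.Prime) {u : ℤ} (h : (p : ℤ) ∣ u - 1) : ¬ (p : ℤ) ∣ u := by
  intro hu
  have h1 : (p : ℤ) ∣ 1 := by
    have h2 := dvd_sub hu h
    rwa [sub_sub_cancel] at h2
  have h3 : p ∣ 1 := by exact_mod_cast h1
  exact hp.one_lt.ne' (Nat.dvd_one.1 h3)

private theorem lte_prime {p k T : ℕ} (hp : p.Prime) {u : ℤ} (h1 : (p : ℤ) ∣ u - 1)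
    (h4 : p = 2 → (4 : ℤ) ∣ u - 1) (h : ((p : ℤ) ^ k) ∣ u ^ T - 1) : ((p : ℤ) ^ k) ∣ T * (u - 1) := by
  have hpp : Prime (p : ℤ) := Nat.prime_iff_prime_int.1 hp
  have key : emultiplicity (p : ℤ) (u ^ T - 1 ^ T) = emultiplicity (p : ℤ) (u - 1) + emultiplicity p T := by
    rcases hp.eq_two_or_odd' with h2 | h2
    · subst h2
      have h3 := Int.two_pow_sub_pow' (x := u) (y := 1) T (h4 rfl) (lte_not_dvd hp h1)
      rw [← Int.natCast_emultiplicity]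
      exact h3
    · exact Int.emultiplicity_pow_sub_pow hp h2 h1 (lte_not_dvd hp h1) T
  rw [one_pow] at key
  rw [pow_dvd_iff_le_emultiplicity] at h ⊢
  rw [emultiplicity_mul hpp, Int.natCast_emultiplicity, add_comm, ← key]
  exact h

theorem lte {f T : ℕ} (hf : f ≠ 0) (hT : T ≠ 0) (u : ℤ)
    (h1 : ∀ l : ℕ, l.Prime → l ∣ f → (l : ℤ) ∣ u - 1) (h4 : 4 ∣ f → (4 : ℤ) ∣ u - 1)
    (h : (f : ℤ) ∣ u ^ T - 1) : (f : ℤ) ∣ T * (u - 1) := by
  have _ := hf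
  have _ := hT
  rw [Int.natCast_dvd, Nat.dvd_iff_prime_pow_dvd_dvd]
  intro p k hp hpk
  rw [← Int.natCast_dvd, Nat.cast_pow]
  have hpkz : ((p : ℤ) ^ k) ∣ (f : ℤ) := by exact_mod_cast hpk
  rcases Nat.eq_zero_or_pos k with hk | hk
  · subst hk
    rw [pow_zero]
    exact one_dvd _
  have hpf : p ∣ f := (dvd_pow_self p hk.ne').trans hpk
  by_cases h2 : p = 2 ∧ ¬ 4 ∣ f
  · obtain ⟨rfl, h5⟩ := h2
    have hk1 : k = 1 := by
      by_contra hne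
      apply h5
      have h6 : 2 ≤ k := by omega
      have h7 : (2 : ℕ) ^ 2 ∣ 2 ^ k := pow_dvd_pow 2 h6
      exact h7.trans hpk
    subst hk1
    rw [pow_one]
    exact dvd_mul_of_dvd_right (h1 2 hp hpf) _
  · refine lte_prime hp (h1 p hp hpf) (fun hp2 => h4 ?_) (hpkz.trans h)
    by_contra h5
    exact h2 ⟨hp2, h5⟩

end Pool.Agent.FRD
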