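import Pool.Agent.FRD.Defs

/-!
# FRD-PsA: generating series of a polynomial function
-/

open Polynomial

namespace Pool.Agent.FRD

private theorem psa_comp {K : Type} [Field K] (P : K[X]) : P.comp (X - 1) = taylor (-1) P := by
  rw [taylor_apply, map_neg, map_one, sub_eq_add_neg]

private theorem psa_Q {K : Type} [Field K] (d : ℕ) (P : K[X]) (hP : P.natDegree ≤ d + 1) :
    (P - P.comp (X - 1)).natDegree ≤ d ∧ (P - P.comp (X - 1)).coeff d = ((d : K) + 1) * P.coeff (d + 1) := by
  have h1 : ∀ n, (P.comp (X - 1)).coeff n = (hasseDeriv n P).eval (-1) := by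
    intro n
    rw [psa_comp, taylor_coeff]
  have h2 : ∀ n, d < n → (P - P.comp (X - 1)).coeff n = 0 := by
    intro n hn
    rw [coeff_sub, h1]
    have h3 : (hasseDeriv n P).natDegree < 1 := by
      have := natDegree_hasseDeriv_le P n
      omega
    rw [eval_eq_sum_range' h3, Finset.sum_range_one, pow_zero, mul_one, hasseDeriv_coeff, Nat.zero_add, Nat.choose_self,
      Nat.cast_one, one_mul, sub_self]
  refine ⟨natDegree_le_iff_coeff_eq_zero.2 h2, ?_⟩
  rw [coeff_sub, h1]
  have h3 : (hasseDeriv d P).natDegree < 2 := by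
    have := natDegree_hasseDeriv_le P d
    omega
  rw [eval_eq_sum_range' h3, Finset.sum_range_succ, Finset.sum_range_one, hasseDeriv_coeff, hasseDeriv_coeff, Nat.zero_add,
    Nat.choose_self, Nat.add_comm 1 d, Nat.choose_succ_self_right]
  push_cast
  ring

private theorem psa_step {K : Type} [Field K] (P : K[X]) :
    (1 - PowerSeries.X) * PowerSeries.mk (fun m => P.eval (m : K)) =
      PowerSeries.mk (fun m => (P - P.comp (X - 1)).eval (m : K)) + PowerSeries.C (P.eval (-1)) := by
  rw [sub_mul, one_mul]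
  ext n
  rw [map_sub, map_add, PowerSeries.coeff_mk, PowerSeries.coeff_mk, PowerSeries.coeff_C]
  cases n with
  | zero =>
    rw [PowerSeries.coeff_zero_X_mul, if_pos rfl, eval_sub, eval_comp, eval_sub, eval_X, eval_one, Nat.cast_zero, zero_sub, sub_zero]
    ring
  | succ n =>
    rw [PowerSeries.coeff_succ_X_mul, PowerSeries.coeff_mk, if_neg (Nat.succ_ne_zero n), eval_sub, eval_comp, eval_sub, eval_X, eval_one,
      Nat.cast_succ, add_sub_cancel_right, add_zero]

theorem ps_a {K : Type} [Field K] (d : ℕ) (P : K[X]) (hP : P.natDegree ≤ d) :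
    ∃ A : K[X], A.natDegree ≤ d ∧ A.eval 1 = (d.factorial : K) * P.coeff d ∧
      (1 - PowerSeries.X) ^ (d + 1) * PowerSeries.mk (fun m => P.eval (m : K)) =
        (A : PowerSeries K) := by
  induction d generalizing P with
  | zero =>
    have h1 : P = C (P.coeff 0) := eq_C_of_natDegree_le_zero hP
    refine ⟨P, hP, ?_, ?_⟩
    · rw [h1, eval_C, coeff_C_zero, Nat.factorial_zero, Nat.cast_one, one_mul]
    · rw [zero_add, pow_one, psa_step]
      have h2 : P - P.comp (X - 1) = 0 := by
        rw [h1, C_comp, sub_self]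
      rw [h2, h1, eval_C, coe_C]
      ext n
      rw [map_add, PowerSeries.coeff_mk, eval_zero, zero_add]
  | succ d ih =>
    obtain ⟨h1, h2⟩ := psa_Q d P hP
    obtain ⟨A, hA1, hA2, hA3⟩ := ih _ h1
    refine ⟨A + C (P.eval (-1)) * (1 - X) ^ (d + 1), ?_, ?_, ?_⟩
    · refine le_trans (natDegree_add_le _ _) (max_le (le_trans hA1 (Nat.le_succ d)) ?_)
      refine le_trans (natDegree_C_mul_le _ _) (le_trans natDegree_pow_le ?_)
      have h3 : (1 - X : K[X]).natDegree ≤ 1 := by
        refine le_trans (natDegree_sub_le _ _) ?_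
        rw [natDegree_one, natDegree_X]
        exact le_rfl
      calc (d + 1) * (1 - X : K[X]).natDegree ≤ (d + 1) * 1 := Nat.mul_le_mul_left _ h3
        _ = d + 1 := mul_one _
    · rw [eval_add, eval_mul, eval_pow, eval_sub, eval_one, eval_X, sub_self, zero_pow (Nat.succ_ne_zero d), mul_zero, add_zero,
        hA2, h2, Nat.factorial_succ]
      push_cast
      ring
    · rw [pow_succ, mul_assoc, psa_step, mul_add, hA3]
      rw [coe_add, coe_mul, coe_pow, coe_sub, coe_one, coe_X, coe_C]
      ring

end Pool.Agent.FRD
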