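import Pool.Agent.FRD.DefsE
import Pool.Agent.AAP.Dist

/-!
# FRD-TTa (1.2h): the generalized Bernoulli number modulo `l M`, `l ∣ M`

The sum over the residues prime to `l M` is grouped by the residues modulo `M`, then the multiplication theorem.
-/

namespace Pool.Agent.FRD

open Pool.Agent.AAP

private theorem tta_split {E : Type*} [AddCommMonoid E] (M K : ℕ) (g : ℕ → E) :
    ∑ r ∈ Finset.range (M * K), g r =
      ∑ j ∈ Finset.range M, ∑ s ∈ Finset.range K, g (j * K + s) := by
  induction M with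
  | zero => simp
  | succ M ih => rw [Nat.succ_mul, Finset.sum_range_add, ih, Finset.sum_range_succ]

private theorem tta_bb (M N' n s : ℕ) (hM : 0 < M) (hN : 0 < N') (hn : 1 ≤ n) :
    ∑ j ∈ Finset.range M, bb (M * N') n (j * N' + s) = bb N' n s := by
  have hM0 : (M : ℚ) ≠ 0 := by exact_mod_cast hM.ne'
  have hN0 : (N' : ℚ) ≠ 0 := by exact_mod_cast hN.ne'
  unfold bb
  rw [← mult_thm M n hM hn ((s : ℚ) / N'), Finset.mul_sum, Finset.mul_sum]
  refine Finset.sum_congr rfl fun j _ => ?_
  have h1 : (((j * N' + s : ℕ) : ℚ)) / ((M * N' : ℕ) : ℚ) = ((s : ℚ) / N' + j) / M := by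
    push_cast
    field_simp
    ring
  rw [h1]
  push_cast
  rw [mul_pow]
  ring

private theorem tta_units {E : Type*} [AddCommMonoid E] (N : ℕ) [NeZero N] (g : ℕ → E) :
    ∑ r : (ZMod N)ˣ, g (r : ZMod N).val =
      ∑ r ∈ (Finset.range N).filter (fun r => r.Coprime N), g r := by
  refine Finset.sum_bij (fun r _ => (r : ZMod N).val) ?_ ?_ ?_ ?_
  · intro r _
    exact Finset.mem_filter.2 ⟨Finset.mem_range.2 (ZMod.val_lt _), ZMod.val_coe_unit_coprime r⟩
  · intro r _ s _ h
    exact Units.ext (ZMod.val_injective N h)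
  · intro r hr
    obtain ⟨h1, h2⟩ := Finset.mem_filter.1 hr
    refine ⟨ZMod.unitOfCoprime r h2, Finset.mem_univ _, ?_⟩
    rw [ZMod.coe_unitOfCoprime, ZMod.val_natCast_of_lt (Finset.mem_range.1 h1)]
  · intro r _
    rfl

open Pool.Agent.AAP in
theorem tt_a (M l n : ℕ) [NeZero M] [NeZero (l * M)] (hl : l.Prime) (hlM : l ∣ M) (hn : 1 ≤ n)
    {E : Type} [NormedField E] [CharZero E] (γ : (ZMod M)ˣ →* Eˣ) :
    genBern (l * M) n (γ.comp (ZMod.unitsMap (dvd_mul_left M l))) = genBern M n γ := by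
  show TT (l * M) n (γ.comp (ZMod.unitsMap (dvd_mul_left M l))) = TT M n γ
  have hM : 0 < M := Nat.pos_of_ne_zero (NeZero.ne M)
  have hcop : ∀ r : ℕ, r.Coprime (l * M) ↔ r.Coprime M := by
    intro r
    rw [Nat.coprime_mul_iff_right]
    exact ⟨fun h => h.2, fun h => ⟨h.coprime_dvd_right hlM, h⟩⟩
  set f : ℕ → E := fun r =>
    if h : r.Coprime M then ((γ (ZMod.unitOfCoprime r h) : Eˣ) : E) else 0 with hf
  have hf1 : ∀ j s : ℕ, f (j * M + s) = f s := by
    intro j s
    have h0 : (j * M + s).Coprime M ↔ s.Coprime M := by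
      rw [add_comm, Nat.coprime_add_mul_right_left]
    by_cases h : s.Coprime M
    · simp only [hf, dif_pos h, dif_pos (h0.2 h)]
      refine congrArg (fun u => ((γ u : Eˣ) : E)) (Units.ext ?_)
      rw [ZMod.coe_unitOfCoprime, ZMod.coe_unitOfCoprime]
      push_cast
      rw [ZMod.natCast_self, mul_zero, zero_add]
    · simp only [hf, dif_neg h, dif_neg (fun h1 => h (h0.1 h1))]
  have hS : ∑ r ∈ Finset.range (l * M), f r * ((bb (l * M) n r : ℚ) : E) =
        ∑ s ∈ Finset.range M, f s * ((bb M n s : ℚ) : E) := by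
    rw [tta_split, Finset.sum_comm]
    refine Finset.sum_congr rfl fun s _ => ?_
    rw [← tta_bb l M n s hl.pos hM hn, Rat.cast_sum, Finset.mul_sum]
    refine Finset.sum_congr rfl fun j _ => ?_
    rw [hf1 j s]
  have hT : TT M n γ = ∑ s ∈ Finset.range M, f s * ((bb M n s : ℚ) : E) := by
    have h1 : TT M n γ =
        ∑ r : (ZMod M)ˣ, (fun s : ℕ => f s * ((bb M n s : ℚ) : E)) (r : ZMod M).val := by
      unfold TT
      refine Finset.sum_congr rfl fun r _ => ?_
      have h2 : f (r : ZMod M).val = (γ r : E) := by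
        simp only [hf, dif_pos (ZMod.val_coe_unit_coprime r)]
        refine congrArg (fun u => ((γ u : Eˣ) : E)) (Units.ext ?_)
        rw [ZMod.coe_unitOfCoprime, ZMod.natCast_zmod_val]
      show _ = f (r : ZMod M).val * _
      rw [h2]
    rw [h1, tta_units M (fun s : ℕ => f s * ((bb M n s : ℚ) : E)), Finset.sum_filter]
    refine Finset.sum_congr rfl fun s _ => ?_
    by_cases h : s.Coprime M
    · rw [if_pos h]
    · rw [if_neg h]
      simp only [hf, dif_neg h, zero_mul]
  have hL : TT (l * M) n (γ.comp (ZMod.unitsMap (dvd_mul_left M l))) =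
      ∑ r ∈ Finset.range (l * M), f r * ((bb (l * M) n r : ℚ) : E) := by
    have h1 : TT (l * M) n (γ.comp (ZMod.unitsMap (dvd_mul_left M l))) =
        ∑ r : (ZMod (l * M))ˣ, (fun s : ℕ => f s * ((bb (l * M) n s : ℚ) : E))
          (r : ZMod (l * M)).val := by
      unfold TT
      refine Finset.sum_congr rfl fun r _ => ?_
      have h0 : (r : ZMod (l * M)).val.Coprime M :=
        (ZMod.val_coe_unit_coprime r).coprime_dvd_right (dvd_mul_left M l)
      have h2 : f (r : ZMod (l * M)).val =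
          ((γ.comp (ZMod.unitsMap (dvd_mul_left M l))) r : E) := by
        simp only [hf, dif_pos h0]
        rw [MonoidHom.comp_apply]
        refine congrArg (fun u => ((γ u : Eˣ) : E)) (Units.ext ?_)
        rw [ZMod.coe_unitOfCoprime, ZMod.unitsMap_val, ZMod.natCast_val]
      show _ = f (r : ZMod (l * M)).val * _
      rw [h2]
    rw [h1, tta_units (l * M) (fun s : ℕ => f s * ((bb (l * M) n s : ℚ) : E)),
      Finset.sum_filter]
    refine Finset.sum_congr rfl fun s _ => ?_
    by_cases h4 : s.Coprime M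
    · rw [if_pos ((hcop s).2 h4)]
    · rw [if_neg (fun h5 => h4 ((hcop s).1 h5))]
      simp only [hf, dif_neg h4, zero_mul]
  rw [hL, hS, hT]

end Pool.Agent.FRD
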